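import Mathlib

/-!
# Counting integers all of whose prime factors are `1` or `c` modulo `8`

For `c = 3, 5, 7` their number up to `x` is `O(x / sqrt (log x))`.
-/

set_option autoImplicit false

namespace Pool.Agent.H27.ADS

open Finset

/-- The real character modulo `8` with value `1` at `1` and `c`. -/
def chi (c m : ℕ) : ℤ := if m % 2 = 0 then 0 else if m % 8 = 1 ∨ m % 8 = c then 1 else -1

/-- All prime factors are `1` or `c` modulo `8`. -/
def Adm (c m : ℕ) : Prop := ∀ q : ℕ, q.Prime → q ∣ m → q % 8 = 1 ∨ q % 8 = c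

theorem chi_mod (c m : ℕ) : chi c (m % 8) = chi c m := by
  unfold chi
  have h1 : m % 8 % 2 = m % 2 := by omega
  rw [h1, Nat.mod_mod]

theorem chi_mul {c : ℕ} (hc : c = 3 ∨ c = 5 ∨ c = 7) (a b : ℕ) :
    chi c (a * b) = chi c a * chi c b := by
  rw [← chi_mod c (a * b), Nat.mul_mod, ← chi_mod c a, ← chi_mod c b]
  have ha : a % 8 < 8 := Nat.mod_lt _ (by norm_num)
  have hb : b % 8 < 8 := Nat.mod_lt _ (by norm_num)
  generalize a % 8 = u at *
  generalize b % 8 = v at *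
  rcases hc with rfl | rfl | rfl <;> interval_cases u <;> interval_cases v <;> decide

theorem sum_chi_mod {c : ℕ} (hc : c = 3 ∨ c = 5 ∨ c = 7) (t : ℕ) :
    ∑ d ∈ range (t + 1), chi c d = ∑ d ∈ range (t % 8 + 1), chi c d := by
  induction t with
  | zero => rfl
  | succ t ih =>
    rw [Finset.sum_range_succ, ih]
    by_cases h7 : t % 8 = 7
    · have h1 : (t + 1) % 8 = 0 := by omega
      rw [← chi_mod c (t + 1), h1, h7]
      rcases hc with rfl | rfl | rfl <;> decide
    · have h1 : (t + 1) % 8 = t % 8 + 1 := by omega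
      rw [← chi_mod c (t + 1), h1, Finset.sum_range_succ _ (t % 8 + 1)]

theorem abs_sum_chi {c : ℕ} (hc : c = 3 ∨ c = 5 ∨ c = 7) (t : ℕ) :
    |∑ d ∈ range (t + 1), chi c d| ≤ 2 := by
  rw [sum_chi_mod hc]
  have hb : t % 8 < 8 := Nat.mod_lt _ (by norm_num)
  generalize t % 8 = u at *
  rcases hc with rfl | rfl | rfl <;> interval_cases u <;> decide

theorem abs_sum_chi_div_aux {c : ℕ} (hc : c = 3 ∨ c = 5 ∨ c = 7) (z : ℕ) :
    |(∑ d ∈ range (z + 1), (chi c d : ℝ) / d) -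
      ((∑ d ∈ range (z + 1), chi c d : ℤ) : ℝ) / (z + 1)| ≤ 2 * (1 - 1 / (z + 1)) := by
  induction z with
  | zero => simp [chi]
  | succ z ih =>
    have h1 : |((∑ d ∈ range (z + 1 + 1), chi c d : ℤ) : ℝ)| ≤ 2 := by
      have := abs_sum_chi hc (z + 1)
      exact_mod_cast this
    have hz : (0 : ℝ) < (z : ℝ) + 1 := by positivity
    have hz2 : (0 : ℝ) < (z : ℝ) + 1 + 1 := by positivity
    have h2 : (∑ d ∈ range (z + 1 + 1), (chi c d : ℝ) / d) -
        ((∑ d ∈ range (z + 1 + 1), chi c d : ℤ) : ℝ) / ((z + 1 : ℕ) + 1) =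
        ((∑ d ∈ range (z + 1), (chi c d : ℝ) / d) -
          ((∑ d ∈ range (z + 1), chi c d : ℤ) : ℝ) / (z + 1)) +
        ((∑ d ∈ range (z + 1 + 1), chi c d : ℤ) : ℝ) * (1 / (z + 1) - 1 / (z + 1 + 1)) := by
      rw [Finset.sum_range_succ (fun d => (chi c d : ℝ) / d) (z + 1)]
      rw [Finset.sum_range_succ (fun d => chi c d) (z + 1)]
      push_cast
      field_simp
      ring
    rw [h2]
    refine (abs_add_le _ _).trans ?_
    rw [abs_mul]
    have h3 : (0 : ℝ) ≤ 1 / ((z : ℝ) + 1) - 1 / ((z : ℝ) + 1 + 1) := by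
      rw [sub_nonneg]
      exact one_div_le_one_div_of_le hz (by linarith)
    rw [abs_of_nonneg h3]
    have h4 := mul_le_mul_of_nonneg_right h1 h3
    refine (add_le_add ih h4).trans ?_
    push_cast
    linarith

theorem abs_sum_chi_div {c : ℕ} (hc : c = 3 ∨ c = 5 ∨ c = 7) (z : ℕ) :
    ∑ d ∈ Icc 1 z, (chi c d : ℝ) / d ≤ 2 := by
  have h1 := abs_sum_chi_div_aux hc z
  have h2 : |((∑ d ∈ range (z + 1), chi c d : ℤ) : ℝ)| ≤ 2 := by
    have := abs_sum_chi hc z
    exact_mod_cast this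
  have hz : (0 : ℝ) < (z : ℝ) + 1 := by positivity
  have h3 : ∑ d ∈ Icc 1 z, (chi c d : ℝ) / d = ∑ d ∈ range (z + 1), (chi c d : ℝ) / d := by
    rw [Finset.sum_range_succ' , Nat.cast_zero, div_zero, add_zero]
    rw [Finset.range_eq_Ico, Finset.sum_Ico_add' (fun d : ℕ => (chi c d : ℝ) / d) 0 z 1]
    rfl
  rw [h3]
  have h4 := (abs_le.mp h1).2
  have h5 := (abs_le.mp h2).2
  have h6 : ((∑ d ∈ range (z + 1), chi c d : ℤ) : ℝ) / (z + 1) ≤ 2 / (z + 1) := by gcongr
  have h7 : 2 * (1 - 1 / ((z : ℝ) + 1)) = 2 - 2 / (z + 1) := by ring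
  linarith

/-- Dirichlet rearrangement. -/
theorem sum_divisors_rearrange (F : ℕ → ℕ → ℝ) (y : ℕ) :
    ∑ m ∈ Icc 1 y, ∑ d ∈ m.divisors, F d (m / d) =
      ∑ e ∈ Icc 1 y, ∑ d ∈ Icc 1 (y / e), F d e := by
  rw [Finset.sum_sigma', Finset.sum_sigma']
  refine Finset.sum_bij' (fun x _ => ⟨x.1 / x.2, x.2⟩) (fun x _ => ⟨x.2 * x.1, x.2⟩)
    ?_ ?_ ?_ ?_ ?_
  · rintro ⟨m, d⟩ h
    simp only [mem_sigma, mem_Icc, Nat.mem_divisors] at h ⊢
    obtain ⟨⟨h1, h2⟩, ⟨e, rfl⟩, h4⟩ := h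
    have hd : 0 < d := Nat.pos_of_ne_zero (by rintro rfl; simp at h4)
    have he : 0 < e := Nat.pos_of_ne_zero (by rintro rfl; simp at h4)
    rw [Nat.mul_div_cancel_left _ hd]
    refine ⟨⟨he, ?_⟩, hd, ?_⟩
    · exact (Nat.le_mul_of_pos_left e hd).trans h2
    · exact (Nat.le_div_iff_mul_le he).mpr h2
  · rintro ⟨e, d⟩ h
    simp only [mem_sigma, mem_Icc, Nat.mem_divisors] at h ⊢
    obtain ⟨⟨h1, h2⟩, h3, h4⟩ := h
    refine ⟨⟨Nat.mul_pos h3 h1, (Nat.le_div_iff_mul_le h1).mp h4⟩, Nat.dvd_mul_right _ _, ?_⟩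
    positivity
  · rintro ⟨m, d⟩ h
    simp only [mem_sigma, mem_Icc, Nat.mem_divisors] at h ⊢
    simp [Nat.mul_div_cancel' h.2.1]
  · rintro ⟨e, d⟩ h
    simp only [mem_sigma, mem_Icc] at h ⊢
    have hd : 0 < d := h.2.1
    simp [Nat.mul_div_cancel_left _ hd]
  · rintro ⟨m, d⟩ h
    rfl

/-- The divisor sum of the character. -/
theorem sum_r_div {c : ℕ} (hc : c = 3 ∨ c = 5 ∨ c = 7) (y : ℕ) :
    ∑ m ∈ Icc 1 y, ((∑ d ∈ m.divisors, chi c d : ℤ) : ℝ) / m ≤ 2 * (1 + Real.log y) := by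
  have h1 : ∑ m ∈ Icc 1 y, ((∑ d ∈ m.divisors, chi c d : ℤ) : ℝ) / m =
      ∑ m ∈ Icc 1 y, ∑ d ∈ m.divisors, (chi c d : ℝ) / d * (1 / ((m / d : ℕ) : ℝ)) := by
    refine Finset.sum_congr rfl fun m hm => ?_
    push_cast
    rw [Finset.sum_div]
    refine Finset.sum_congr rfl fun d hd => ?_
    rw [Nat.mem_divisors] at hd
    obtain ⟨⟨e, rfl⟩, h4⟩ := hd
    have hd : 0 < d := Nat.pos_of_ne_zero (by rintro rfl; simp at h4)
    rw [Nat.mul_div_cancel_left _ hd, div_mul_div_comm, mul_one]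
    push_cast
    rfl
  rw [h1, sum_divisors_rearrange (fun d e => (chi c d : ℝ) / d * (1 / (e : ℝ))) y]
  have h2 : ∀ e ∈ Icc 1 y, ∑ d ∈ Icc 1 (y / e), (chi c d : ℝ) / d * (1 / (e : ℝ)) ≤
      2 * (1 / (e : ℝ)) := by
    intro e _
    rw [← Finset.sum_mul]
    exact mul_le_mul_of_nonneg_right (abs_sum_chi_div hc _) (by positivity)
  refine (Finset.sum_le_sum h2).trans ?_
  rw [← Finset.mul_sum]
  have h3 : ∑ e ∈ Icc 1 y, 1 / (e : ℝ) = (harmonic y : ℝ) := by
    rw [harmonic_eq_sum_Icc]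
    push_cast
    simp
  rw [h3]
  have := harmonic_le_one_add_log y
  linarith

theorem Adm.odd {c m : ℕ} (hc : c = 3 ∨ c = 5 ∨ c = 7) (h : Adm c m) : m % 2 = 1 := by
  by_contra hcon
  have := h 2 Nat.prime_two (by omega)
  omega

theorem Adm.of_dvd {c m d : ℕ} (h : Adm c m) (hd : d ∣ m) : Adm c d :=
  fun q hq hqd => h q hq (hqd.trans hd)

theorem Adm.mul {c a b : ℕ} (ha : Adm c a) (hb : Adm c b) : Adm c (a * b) := by
  intro q hq hqd
  rcases (Nat.Prime.dvd_mul hq).mp hqd with h1 | h1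
  · exact ha q hq h1
  · exact hb q hq h1

theorem chi_of_adm {c m : ℕ} (hc : c = 3 ∨ c = 5 ∨ c = 7) (hm : m ≠ 0) (h : Adm c m) :
    chi c m = 1 := by
  induction m using Nat.recOnMul with
  | zero => exact absurd rfl hm
  | one => rcases hc with rfl | rfl | rfl <;> decide
  | prime p hp =>
    have h1 := h p hp dvd_rfl
    unfold chi
    rw [if_neg (by omega), if_pos h1]
  | mul a b iha ihb =>
    have ha0 : a ≠ 0 := by rintro rfl; simp at hm
    have hb0 : b ≠ 0 := by rintro rfl; simp at hm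
    rw [chi_mul hc, iha ha0 (h.of_dvd (Nat.dvd_mul_right a b)),
      ihb hb0 (h.of_dvd (Nat.dvd_mul_left b a)), one_mul]

theorem r_of_adm {c m : ℕ} (hc : c = 3 ∨ c = 5 ∨ c = 7) (hm : m ≠ 0) (h : Adm c m) :
    ∑ d ∈ m.divisors, chi c d = (m.divisors.card : ℤ) := by
  rw [Finset.sum_congr rfl (g := fun _ => (1 : ℤ))]
  · simp
  · intro d hd
    have hd' := Nat.dvd_of_mem_divisors hd
    exact chi_of_adm hc (by rintro rfl; exact hm (Nat.eq_zero_of_zero_dvd hd')) (h.of_dvd hd')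

/-- `chi` as an arithmetic function. -/
def chiA (c : ℕ) : ArithmeticFunction ℤ := ⟨chi c, by simp [chi]⟩

theorem chiA_mult {c : ℕ} (hc : c = 3 ∨ c = 5 ∨ c = 7) : (chiA c).IsMultiplicative := by
  refine ⟨?_, fun {a b} _ => chi_mul hc a b⟩
  change chi c 1 = 1
  rcases hc with rfl | rfl | rfl <;> decide

theorem r_nonneg {c : ℕ} (hc : c = 3 ∨ c = 5 ∨ c = 7) {m : ℕ} (hm : m ≠ 0) :
    0 ≤ ∑ d ∈ m.divisors, chi c d := by
  have h1 : (((ArithmeticFunction.zeta : ArithmeticFunction ℕ) : ArithmeticFunction ℤ) *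
      chiA c).IsMultiplicative :=
    (ArithmeticFunction.isMultiplicative_zeta.natCast).mul (chiA_mult hc)
  have h2 : ∑ d ∈ m.divisors, chi c d =
      (((ArithmeticFunction.zeta : ArithmeticFunction ℕ) : ArithmeticFunction ℤ) * chiA c) m := by
    rw [ArithmeticFunction.coe_zeta_mul_apply]
    rfl
  rw [h2, h1.multiplicative_factorization _ hm]
  apply Finset.prod_nonneg
  intro p hp
  have hpp : p.Prime := Nat.prime_of_mem_primeFactors (by rwa [Nat.support_factorization] at hp)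
  beta_reduce
  rw [ArithmeticFunction.coe_zeta_mul_apply, Nat.sum_divisors_prime_pow hpp]
  have h3 : ∀ i : ℕ, (chiA c) (p ^ i) = (chi c p) ^ i := by
    intro i
    change chi c (p ^ i) = _
    induction i with
    | zero =>
      rw [pow_zero, pow_zero]
      rcases hc with rfl | rfl | rfl <;> decide
    | succ i ih => rw [pow_succ, chi_mul hc, ih, pow_succ]
  simp only [h3]
  have h4 : chi c p = 0 ∨ chi c p = 1 ∨ chi c p = -1 := by
    unfold chi
    split_ifs <;> simp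
  rcases h4 with h4 | h4 | h4
  · rw [h4]
    exact Finset.sum_nonneg fun i _ => pow_nonneg le_rfl i
  · rw [h4]
    exact Finset.sum_nonneg fun i _ => by simp
  · rw [h4, neg_one_geom_sum]
    split_ifs <;> norm_num

open Classical in
/-- indicator function -/
noncomputable def ind (c m : ℕ) : ℝ := if Adm c m then 1 else 0

theorem ind_nonneg (c m : ℕ) : 0 ≤ ind c m := by
  unfold ind; split_ifs <;> norm_num

theorem ind_le_one (c m : ℕ) : ind c m ≤ 1 := by
  unfold ind; split_ifs <;> norm_num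

theorem ind_mul_le (c a b : ℕ) : ind c a * ind c b ≤ ind c (a * b) := by
  unfold ind
  by_cases ha : Adm c a
  · by_cases hb : Adm c b
    · rw [if_pos ha, if_pos hb, if_pos (ha.mul hb)]; norm_num
    · rw [if_neg hb, mul_zero]; split_ifs <;> norm_num
  · rw [if_neg ha, zero_mul]; split_ifs <;> norm_num

theorem ind_le_of_dvd {c a b : ℕ} (h : a ∣ b) : ind c b ≤ ind c a := by
  unfold ind
  by_cases hb : Adm c b
  · rw [if_pos hb, if_pos (hb.of_dvd h)]
  · rw [if_neg hb]; split_ifs <;> norm_num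

/-- The logarithmic sum of the indicator function is `O(sqrt (log x))`. -/
theorem sq_sum_ind_div {c : ℕ} (hc : c = 3 ∨ c = 5 ∨ c = 7) (x : ℕ) :
    (∑ m ∈ Icc 1 x, ind c m / m) ^ 2 ≤ 2 * (1 + Real.log ((x ^ 2 : ℕ) : ℝ)) := by
  have h1 : (∑ m ∈ Icc 1 x, ind c m / m) ^ 2 =
      ∑ e ∈ Icc 1 x, ∑ d ∈ Icc 1 x, ind c d / d * (ind c e / e) := by
    rw [sq, Finset.sum_mul_sum, Finset.sum_comm]
  have h2 : ∑ e ∈ Icc 1 x, ∑ d ∈ Icc 1 x, ind c d / d * (ind c e / e) ≤
      ∑ e ∈ Icc 1 (x ^ 2), ∑ d ∈ Icc 1 (x ^ 2 / e), ind c d / d * (ind c e / e) := by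
    have hnn : ∀ d e : ℕ, 0 ≤ ind c d / d * (ind c e / e) := fun d e =>
      mul_nonneg (div_nonneg (ind_nonneg c d) (Nat.cast_nonneg d))
        (div_nonneg (ind_nonneg c e) (Nat.cast_nonneg e))
    refine (Finset.sum_le_sum fun e he => ?_).trans
      (Finset.sum_le_sum_of_subset_of_nonneg ?_ fun e _ _ => Finset.sum_nonneg fun d _ => hnn d e)
    · refine Finset.sum_le_sum_of_subset_of_nonneg ?_ fun d _ _ => hnn d e
      rw [mem_Icc] at he
      apply Finset.Icc_subset_Icc_right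
      rw [Nat.le_div_iff_mul_le he.1, sq]
      exact Nat.mul_le_mul_left x he.2
    · apply Finset.Icc_subset_Icc_right
      rcases Nat.eq_zero_or_pos x with h | h
      · rw [h]; simp
      · rw [sq]; exact Nat.le_mul_of_pos_left x h
  rw [h1]
  refine h2.trans ?_
  rw [← sum_divisors_rearrange (fun d e => ind c d / d * (ind c e / e)) (x ^ 2)]
  refine le_trans (Finset.sum_le_sum fun m hm => ?_) (sum_r_div hc (x ^ 2))
  rw [mem_Icc] at hm
  have hm0 : m ≠ 0 := by omega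
  have hmpos : (0 : ℝ) < m := by exact_mod_cast hm.1
  have h3 : ∀ d ∈ m.divisors, ind c d / d * (ind c (m / d) / ((m / d : ℕ) : ℝ)) ≤ ind c m / m := by
    intro d hd
    rw [Nat.mem_divisors] at hd
    obtain ⟨⟨e, rfl⟩, h4⟩ := hd
    have hd : 0 < d := Nat.pos_of_ne_zero (by rintro rfl; simp at h4)
    rw [Nat.mul_div_cancel_left _ hd, div_mul_div_comm]
    push_cast
    exact div_le_div_of_nonneg_right (ind_mul_le c d e) (by positivity)
  refine (Finset.sum_le_sum h3).trans ?_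
  rw [Finset.sum_const, nsmul_eq_mul, mul_div_assoc']
  refine div_le_div_of_nonneg_right ?_ hmpos.le
  by_cases hA : Adm c m
  · rw [r_of_adm hc hm0 hA]
    unfold ind
    rw [if_pos hA, mul_one]
    push_cast
    exact le_rfl
  · unfold ind
    rw [if_neg hA, mul_zero]
    exact_mod_cast r_nonneg hc hm0

theorem sum_ind_log_le (c x : ℕ) :
    ∑ m ∈ Icc 1 x, ind c m * Real.log m ≤
      (Real.log 4 + 4) * x * ∑ m ∈ Icc 1 x, ind c m / m := by
  have h1 : ∑ m ∈ Icc 1 x, ind c m * Real.log m ≤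
      ∑ m ∈ Icc 1 x, ∑ d ∈ m.divisors, ArithmeticFunction.vonMangoldt d * ind c (m / d) := by
    refine Finset.sum_le_sum fun m _ => ?_
    rw [← ArithmeticFunction.vonMangoldt_sum, Finset.mul_sum]
    refine Finset.sum_le_sum fun d hd => ?_
    rw [mul_comm]
    refine mul_le_mul_of_nonneg_left ?_ ArithmeticFunction.vonMangoldt_nonneg
    exact ind_le_of_dvd (Nat.div_dvd_of_dvd (Nat.dvd_of_mem_divisors hd))
  refine h1.trans ?_
  rw [sum_divisors_rearrange (fun d e => ArithmeticFunction.vonMangoldt d * ind c e) x,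
    Finset.mul_sum]
  refine Finset.sum_le_sum fun e he => ?_
  rw [mem_Icc] at he
  rw [← Finset.sum_mul]
  have h2 : ∑ d ∈ Icc 1 (x / e), ArithmeticFunction.vonMangoldt d ≤
      (Real.log 4 + 4) * ((x : ℝ) / e) := by
    have h3 := Chebyshev.psi_le_const_mul_self (x := ((x / e : ℕ) : ℝ)) (by positivity)
    rw [Chebyshev.psi, Nat.floor_natCast] at h3
    have h4 : ((x / e : ℕ) : ℝ) ≤ (x : ℝ) / e := Nat.cast_div_le
    have h5 : (0 : ℝ) ≤ Real.log 4 + 4 := by
      have := Real.log_nonneg (show (1 : ℝ) ≤ 4 by norm_num)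
      linarith
    exact h3.trans (mul_le_mul_of_nonneg_left h4 h5)
  calc (∑ d ∈ Icc 1 (x / e), ArithmeticFunction.vonMangoldt d) * ind c e
      ≤ (Real.log 4 + 4) * ((x : ℝ) / e) * ind c e :=
        mul_le_mul_of_nonneg_right h2 (ind_nonneg c e)
    _ = (Real.log 4 + 4) * x * (ind c e / e) := by ring

/-- The constant in the counting bound. -/
noncomputable def CC : ℝ := 1 + 2 * (Real.log 4 + 4) * Real.sqrt 7

theorem CC_ge_one : 1 ≤ CC := by
  unfold CC
  have := Real.log_nonneg (show (1 : ℝ) ≤ 4 by norm_num)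
  have h2 := Real.sqrt_nonneg 7
  have : 0 ≤ 2 * (Real.log 4 + 4) * Real.sqrt 7 := by positivity
  linarith

theorem sqrt_le_div {x : ℕ} (hx : 2 ≤ x) :
    Real.sqrt x ≤ x / Real.sqrt (Real.log x) := by
  have hx1 : (1 : ℝ) < x := by exact_mod_cast (by omega : 1 < x)
  have hL : 0 < Real.log x := Real.log_pos hx1
  rw [le_div_iff₀ (Real.sqrt_pos.mpr hL), ← Real.sqrt_mul (by positivity)]
  have h1 : Real.log x ≤ x := (Real.log_le_sub_one_of_pos (by linarith)).trans (by linarith)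
  calc Real.sqrt (x * Real.log x) ≤ Real.sqrt (x * x) := by
        apply Real.sqrt_le_sqrt
        exact mul_le_mul_of_nonneg_left h1 (by positivity)
    _ = x := Real.sqrt_mul_self (by positivity)

/-- **Counting bound**: the number of `m ≤ x` all of whose prime factors are `1` or `c`
modulo `8` is `O(x / sqrt (log x))`. -/
theorem sum_ind_le {c : ℕ} (hc : c = 3 ∨ c = 5 ∨ c = 7) {x : ℕ} (hx : 2 ≤ x) :
    ∑ m ∈ Icc 1 x, ind c m ≤ CC * (x / Real.sqrt (Real.log x)) := by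
  have hx1 : (1 : ℝ) < x := by exact_mod_cast (by omega : 1 < x)
  have hL : 0 < Real.log x := Real.log_pos hx1
  set L := Real.log (x : ℝ) with hLdef
  set R := Real.sqrt L with hR
  have hRpos : 0 < R := Real.sqrt_pos.mpr hL
  have hRR : R * R = L := Real.mul_self_sqrt hL.le
  have hlog2 : Real.log 2 ≤ L := by
    apply Real.log_le_log (by norm_num)
    exact_mod_cast hx
  have hlog2' : (0.6931471803 : ℝ) < Real.log 2 := Real.log_two_gt_d9
  set F := ∑ m ∈ Icc 1 x, ind c m / m with hF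
  have hF0 : 0 ≤ F := Finset.sum_nonneg fun m _ => div_nonneg (ind_nonneg c m) (Nat.cast_nonneg m)
  have hF2 : F ^ 2 ≤ 7 * L := by
    have h1 := sq_sum_ind_div hc x
    have h2 : Real.log ((x ^ 2 : ℕ) : ℝ) = 2 * L := by
      push_cast
      rw [Real.log_pow]
      push_cast
      rw [hLdef]
    rw [h2] at h1
    refine h1.trans ?_
    linarith
  have hFR : F ≤ Real.sqrt 7 * R := by
    rw [hR, ← Real.sqrt_mul (by norm_num)]
    exact Real.le_sqrt_of_sq_le hF2
  have hc0 : 0 ≤ Real.log 4 + 4 := by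
    have := Real.log_nonneg (show (1 : ℝ) ≤ 4 by norm_num)
    linarith
  -- pointwise bound
  have h1 : ∀ m ∈ Icc 1 x, ind c m ≤ (if m * m ≤ x then 1 else 0) +
      2 / L * (ind c m * Real.log m) := by
    intro m hm
    rw [mem_Icc] at hm
    have hm1 : (1 : ℝ) ≤ m := by exact_mod_cast hm.1
    have hlogm : 0 ≤ Real.log m := Real.log_nonneg hm1
    by_cases hmx : m * m ≤ x
    · rw [if_pos hmx]
      have h2 : 0 ≤ 2 / L * (ind c m * Real.log m) :=
        mul_nonneg (by positivity) (mul_nonneg (ind_nonneg c m) hlogm)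
      linarith [ind_le_one c m]
    · rw [if_neg hmx, zero_add]
      have h2 : L ≤ 2 * Real.log m := by
        have h3 : (x : ℝ) ≤ (m : ℝ) * m := by exact_mod_cast (not_le.mp hmx).le
        have h4 := Real.log_le_log (by linarith) h3
        rw [Real.log_mul (by linarith) (by linarith)] at h4
        linarith
      have h5 : 1 ≤ 2 / L * Real.log m := by
        rw [div_mul_eq_mul_div, le_div_iff₀ hL]
        linarith
      calc ind c m = ind c m * 1 := (mul_one _).symm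
        _ ≤ ind c m * (2 / L * Real.log m) := mul_le_mul_of_nonneg_left h5 (ind_nonneg c m)
        _ = _ := by ring
  refine (Finset.sum_le_sum h1).trans ?_
  rw [Finset.sum_add_distrib, ← Finset.mul_sum]
  have h2 : ∑ m ∈ Icc 1 x, (if m * m ≤ x then (1 : ℝ) else 0) ≤ Real.sqrt x := by
    rw [Finset.sum_boole]
    have h3 : (Icc 1 x).filter (fun m => m * m ≤ x) ⊆ Icc 1 (Nat.sqrt x) := by
      intro m hm
      rw [mem_filter, mem_Icc] at hm
      rw [mem_Icc]
      exact ⟨hm.1.1, Nat.le_sqrt.mpr hm.2⟩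
    have h4 := Finset.card_le_card h3
    rw [Nat.card_Icc, Nat.add_sub_cancel] at h4
    refine le_trans (by exact_mod_cast h4) (Real.nat_sqrt_le_real_sqrt)
  have h3 := sum_ind_log_le c x
  have h4 : 2 / L * ∑ m ∈ Icc 1 x, ind c m * Real.log m ≤
      2 / L * ((Real.log 4 + 4) * x * (Real.sqrt 7 * R)) := by
    apply mul_le_mul_of_nonneg_left _ (by positivity)
    refine h3.trans ?_
    exact mul_le_mul_of_nonneg_left hFR (by positivity)
  have h5 : 2 / L * ((Real.log 4 + 4) * x * (Real.sqrt 7 * R)) =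
      2 * (Real.log 4 + 4) * Real.sqrt 7 * (x / R) := by
    rw [← hRR]
    field_simp
  have h6 := sqrt_le_div hx
  rw [← hLdef, ← hR] at h6
  calc _ ≤ x / R + 2 * (Real.log 4 + 4) * Real.sqrt 7 * (x / R) := by
        rw [← h5]
        exact add_le_add (h2.trans h6) h4
    _ = CC * (x / R) := by unfold CC; ring

end Pool.Agent.H27.ADS
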