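import Pool.Agent.H27.ADS.Struct
import Pool.Agent.H27.ADS.Count

/-!
# The number of orders of abelian affine difference sets up to `x` is `O(x / sqrt (log x))`
-/

set_option autoImplicit false

namespace Pool.Agent.H27.ADS.CountBound

open Finset Pool.Agent.H27.ADS

/-- A nonsquare order is even and `n - 1` has only prime factors `1, 7` modulo `8`, or it is odd
and all its prime factors are `1` or `c` modulo `8` for some `c` among `3, 5, 7`. -/
theorem order_cases {n : ℕ} (h : IsOrder n) :
    IsSquare n ∨ (Adm 7 (n - 1) ∧ 2 ≤ n) ∨ Adm 5 n ∨ Adm 3 n ∨ Adm 7 n := by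
  have hn : 2 ≤ n := by
    obtain ⟨G, _, _, _, N, D, hD⟩ := h
    exact hD.two_le
  by_cases hns : IsSquare n
  · exact Or.inl hns
  have hcase : n % 2 = 0 ∨ n % 4 = 1 ∨ n % 8 = 3 ∨ n % 8 = 7 := by omega
  rcases hcase with h2 | h1 | h3 | h7
  · right; left
    exact ⟨fun q hq hqn => h.even_case hns h2 hq hqn, hn⟩
  · right; right; left
    intro q hq hqn
    have := h.one_mod_four_case hns h1 hq hqn
    omega
  · right; right; right; left
    intro q hq hqn
    have h4 : n + 1 = 2 ^ 2 * ((n + 1) / 4) := by omega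
    have := h.three_mod_four_case (by omega) (by omega : ((n + 1) / 4) % 2 = 1) h4 hq hqn
    norm_num at this
    exact this
  · right; right; right; right
    intro q hq hqn
    obtain ⟨s, m, hm, hsm⟩ := Nat.exists_eq_two_pow_mul_odd (Nat.succ_ne_zero n)
    rw [Nat.succ_eq_add_one] at hsm
    have hm1 := Nat.odd_iff.mp hm
    have hs3 : 3 ≤ s := by
      by_contra hc
      have : s = 0 ∨ s = 1 ∨ s = 2 := by omega
      rcases this with rfl | rfl | rfl
      · rw [pow_zero, one_mul] at hsm; omega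
      · rw [pow_one] at hsm; omega
      · norm_num at hsm; omega
    obtain ⟨i, rfl⟩ : ∃ i, s = i + 3 := ⟨s - 3, by omega⟩
    have h5 := h.three_mod_four_case (by omega) hm1 hsm hq hqn
    have h6 : 2 ^ (i + 3 + 1) = 8 * 2 ^ (i + 1) := by ring
    have h8 : q % 8 = q % 2 ^ (i + 3 + 1) % 8 := by
      rw [h6]
      exact (Nat.mod_mul_right_mod q 8 (2 ^ (i + 1))).symm
    have h9 : 2 ^ (i + 3) = 8 * 2 ^ i := by ring
    have h10 : 1 ≤ 2 ^ i := Nat.one_le_two_pow
    rcases h5 with h5 | h5
    · left; omega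
    · right; omega

open Classical in
theorem card_adm (c x : ℕ) :
    (((Icc 1 x).filter (fun m => Adm c m)).card : ℝ) = ∑ m ∈ Icc 1 x, ind c m := by
  unfold ind
  rw [Finset.sum_boole]

/-- **The number of `n ≤ x` which are orders of abelian affine difference sets is
`O(x / sqrt (log x))`.** -/
theorem result : ∃ C : ℝ, 0 < C ∧ ∀ x : ℕ, 2 ≤ x →
    ({n : ℕ | n ≤ x ∧ IsOrder n}.ncard : ℝ) ≤ C * (x / Real.sqrt (Real.log x)) := by
  classical
  have hCC := CC_ge_one
  refine ⟨4 * CC + 2, by linarith, fun x hx => ?_⟩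
  have hsub : {n : ℕ | n ≤ x ∧ IsOrder n} ⊆
      (((range (Nat.sqrt x + 1)).image (fun m => m * m) ∪
        ((Icc 1 x).filter (fun m => Adm 7 m)).image (fun m => m + 1)) ∪
      (((Icc 1 x).filter (fun m => Adm 5 m) ∪ (Icc 1 x).filter (fun m => Adm 3 m)) ∪
        (Icc 1 x).filter (fun m => Adm 7 m)) : Finset ℕ) := by
    rintro n ⟨hnx, hn⟩
    have hn2 : 2 ≤ n := by
      obtain ⟨G, _, _, _, N, D, hD⟩ := hn
      exact hD.two_le
    simp only [coe_union, Set.mem_union, mem_coe, mem_image, mem_filter, mem_Icc, mem_range]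
    rcases order_cases hn with ⟨r, hr⟩ | ⟨h, -⟩ | h | h | h
    · left; left
      exact ⟨r, by
        have : r ≤ Nat.sqrt x := Nat.le_sqrt.mpr (by rw [← hr]; exact hnx)
        omega, hr.symm⟩
    · left; right
      exact ⟨n - 1, ⟨⟨by omega, by omega⟩, h⟩, by omega⟩
    · right; left; left
      exact ⟨⟨by omega, hnx⟩, h⟩
    · right; left; right
      exact ⟨⟨by omega, hnx⟩, h⟩
    · right; right
      exact ⟨⟨by omega, hnx⟩, h⟩
  have h1 := Set.ncard_le_ncard hsub (Finset.finite_toSet _)
  rw [Set.ncard_coe_finset] at h1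
  have h2 : (((range (Nat.sqrt x + 1)).image (fun m => m * m)).card : ℝ) ≤ Real.sqrt x + 1 := by
    have h3 : ((range (Nat.sqrt x + 1)).image (fun m => m * m)).card ≤ Nat.sqrt x + 1 := by
      refine Finset.card_image_le.trans ?_
      rw [card_range]
    have h4 := @Real.nat_sqrt_le_real_sqrt x
    have h5 : (((range (Nat.sqrt x + 1)).image (fun m => m * m)).card : ℝ) ≤
        ((Nat.sqrt x + 1 : ℕ) : ℝ) := by exact_mod_cast h3
    push_cast at h5
    linarith
  have h3 : ((((Icc 1 x).filter (fun m => Adm 7 m)).image (fun m => m + 1)).card : ℝ) ≤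
      CC * (x / Real.sqrt (Real.log x)) := by
    refine le_trans ?_ (sum_ind_le (Or.inr (Or.inr rfl)) hx)
    rw [← card_adm]
    exact_mod_cast Finset.card_image_le
  have h5 := sum_ind_le (c := 5) (Or.inr (Or.inl rfl)) hx
  have h6 := sum_ind_le (c := 3) (Or.inl rfl) hx
  have h7 := sum_ind_le (c := 7) (Or.inr (Or.inr rfl)) hx
  rw [← card_adm] at h5 h6 h7
  have h8 := sqrt_le_div hx
  have h9 : 1 ≤ Real.sqrt x := by
    rw [Real.one_le_sqrt]
    exact_mod_cast (by omega : 1 ≤ x)
  have h10 : ({n : ℕ | n ≤ x ∧ IsOrder n}.ncard : ℝ) ≤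
      ((((range (Nat.sqrt x + 1)).image (fun m => m * m)).card : ℝ) +
        (((Icc 1 x).filter (fun m => Adm 7 m)).image (fun m => m + 1)).card) +
      (((((Icc 1 x).filter (fun m => Adm 5 m)).card : ℝ) +
        ((Icc 1 x).filter (fun m => Adm 3 m)).card) +
        ((Icc 1 x).filter (fun m => Adm 7 m)).card) := by
    have h11 := h1.trans ((Finset.card_union_le _ _).trans (Nat.add_le_add
      (Finset.card_union_le _ _) ((Finset.card_union_le _ _).trans
        (Nat.add_le_add_right (Finset.card_union_le _ _) _))))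
    exact_mod_cast h11
  refine h10.trans ?_
  linarith

end Pool.Agent.H27.ADS.CountBound
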