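import Mathlib

/-!
# Abelian affine difference sets: definition and multiplier theorem

Every product of prime divisors of the order `n` is a numerical multiplier of an abelian
affine difference set of order `n`.
-/

set_option autoImplicit false

namespace Pool.Agent.H27.ADS

open Finset

/-- `D` is an affine difference set of order `n` in the finite abelian group `G`
relative to the subgroup `N`. -/
structure IsADS {G : Type} [AddCommGroup G] [Fintype G] [DecidableEq G]
    (n : ℕ) (N : AddSubgroup G) (D : Finset G) : Prop where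
  two_le : 2 ≤ n
  card_group : Nat.card G = n ^ 2 - 1
  card_sub : Nat.card N = n - 1
  card_set : D.card = n
  hit : ∀ g : G, g ∉ N → ((D ×ˢ D).filter (fun p => p.1 - p.2 = g)).card = 1
  miss : ∀ g : G, g ∈ N → g ≠ 0 → ((D ×ˢ D).filter (fun p => p.1 - p.2 = g)).card = 0

variable {G : Type} [AddCommGroup G] [Fintype G] [DecidableEq G]
variable {n : ℕ} {N : AddSubgroup G} {D : Finset G}

namespace IsADS

theorem exists_rep (h : IsADS n N D) {g : G} (hg : g ∉ N) :
    ∃ a ∈ D, ∃ b ∈ D, a - b = g := by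
  have h1 := h.hit g hg
  have h2 : ((D ×ˢ D).filter (fun p => p.1 - p.2 = g)).Nonempty := by
    rw [← Finset.card_pos, h1]; exact one_pos
  obtain ⟨x, hx⟩ := h2
  rw [mem_filter, mem_product] at hx
  exact ⟨x.1, hx.1.1, x.2, hx.1.2, hx.2⟩

theorem uniq (h : IsADS n N D) {a b c d : G} (ha : a ∈ D) (hb : b ∈ D) (hc : c ∈ D)
    (hd : d ∈ D) (hg : a - b ∉ N) (he : a - b = c - d) : a = c ∧ b = d := by
  have h1 := h.hit _ hg
  have h2 := (Finset.card_le_one.mp h1.le) (a, b) (by simp [ha, hb]) (c, d)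
    (by simp [hc, hd, he])
  exact Prod.mk.inj h2

theorem eq_of_sub_mem (h : IsADS n N D) {a b : G} (ha : a ∈ D) (hb : b ∈ D)
    (hg : a - b ∈ N) : a = b := by
  by_contra hab
  have h1 := h.miss _ hg (sub_ne_zero.mpr hab)
  rw [Finset.card_eq_zero] at h1
  have h2 : (a, b) ∈ ((D ×ˢ D).filter (fun p => p.1 - p.2 = a - b)) := by simp [ha, hb]
  rw [h1] at h2
  simp at h2

open Classical in
theorem card_out (h : IsADS n N D) : (univ.filter (fun g : G => g ∉ N)).card = n * (n - 1) := by
  have h1 : (univ.filter (fun g : G => g ∈ N)).card = n - 1 := by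
    rw [← h.card_sub, Nat.card_eq_fintype_card, Fintype.card_subtype]
  have h2 := Finset.card_filter_add_card_filter_not (s := (univ : Finset G)) (fun g : G => g ∈ N)
  have h3 : (univ : Finset G).card = n ^ 2 - 1 := by
    rw [← h.card_group, Nat.card_eq_fintype_card, Finset.card_univ]
  rw [h1, h3] at h2
  have h4 := h.two_le
  obtain ⟨m, rfl⟩ : ∃ m, n = m + 1 := ⟨n - 1, by omega⟩
  have h5 : (m + 1) ^ 2 - 1 = m + (m + 1) * m := by
    have : (m + 1) ^ 2 = m + (m + 1) * m + 1 := by ring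
    omega
  rw [h5] at h2
  simp only [Nat.add_sub_cancel] at h2 ⊢
  omega

open Classical in
/-- normalised difference set: the sums `d + h` run through everything outside `N`. -/
theorem image_add (h : IsADS n N D) (h0 : ∀ d ∈ D, d ∉ N) :
    ((D ×ˢ (univ.filter (fun g : G => g ∈ N))).image (fun x => x.1 + x.2)) =
      univ.filter (fun g : G => g ∉ N) ∧
    Set.InjOn (fun x : G × G => x.1 + x.2)
      (D ×ˢ (univ.filter (fun g : G => g ∈ N)) : Finset (G × G)) := by
  have hinj : Set.InjOn (fun x : G × G => x.1 + x.2)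
      (D ×ˢ (univ.filter (fun g : G => g ∈ N)) : Finset (G × G)) := by
    rintro ⟨a, u⟩ hx ⟨b, v⟩ hy hxy
    rw [mem_coe, mem_product, mem_filter] at hx hy
    simp only at hxy hx hy
    have h1 : a - b = v - u := by rw [sub_eq_sub_iff_add_eq_add, hxy, add_comm]
    have h2 : a = b := h.eq_of_sub_mem hx.1 hy.1 (by rw [h1]; exact N.sub_mem hy.2.2 hx.2.2)
    subst h2
    have h3 : u = v := add_left_cancel hxy
    rw [h3]
  refine ⟨?_, hinj⟩
  apply Finset.eq_of_subset_of_card_le
  · intro g hg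
    rw [mem_image] at hg
    obtain ⟨⟨a, u⟩, hx, rfl⟩ := hg
    rw [mem_product, mem_filter] at hx
    rw [mem_filter]
    refine ⟨mem_univ _, fun hc => h0 a hx.1 ?_⟩
    have := N.sub_mem hc hx.2.2
    simpa using this
  · rw [Finset.card_image_of_injOn hinj, card_product, h.card_out, h.card_set]
    have h1 : (univ.filter (fun g : G => g ∈ N)).card = n - 1 := by
      rw [← h.card_sub, Nat.card_eq_fintype_card, Fintype.card_subtype]
    rw [h1]

theorem exists_coset (h : IsADS n N D) (h0 : ∀ d ∈ D, d ∉ N) {g : G} (hg : g ∉ N) :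
    ∃ d ∈ D, g - d ∈ N := by
  classical
  have h1 := (h.image_add h0).1
  have h2 : g ∈ univ.filter (fun g : G => g ∉ N) := by simp [hg]
  rw [← h1, mem_image] at h2
  obtain ⟨⟨a, u⟩, hx, rfl⟩ := h2
  rw [mem_product, mem_filter] at hx
  exact ⟨a, hx.1, by simpa using hx.2.2⟩

theorem index_eq (h : IsADS n N D) : N.index = n + 1 := by
  have h1 := N.card_mul_index
  rw [h.card_sub, h.card_group] at h1
  have h4 := h.two_le
  obtain ⟨m, rfl⟩ : ∃ m, n = m + 2 := ⟨n - 2, by omega⟩
  have h5 : (m + 2) ^ 2 - 1 = (m + 1) * (m + 3) := by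
    have : (m + 2) ^ 2 = (m + 1) * (m + 3) + 1 := by ring
    omega
  rw [h5] at h1
  have h6 : m + 2 - 1 = m + 1 := by omega
  rw [h6] at h1
  exact Nat.eq_of_mul_eq_mul_left (Nat.succ_pos m) h1

theorem index_nsmul_mem (h : IsADS n N D) (g : G) : (n + 1) • g ∈ N := by
  rw [← h.index_eq]
  exact N.nsmul_index_mem g

theorem nsmul_mem_iff (h : IsADS n N D) {t : ℕ} (ht : Nat.Coprime t (n + 1)) (g : G) :
    t • g ∈ N ↔ g ∈ N := by
  refine ⟨fun hg => ?_, fun hg => N.nsmul_mem hg t⟩
  have h1 := h.index_nsmul_mem g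
  have h2 : (Nat.gcd t (n + 1) : ℤ) = t * Nat.gcdA t (n + 1) + ((n + 1 : ℕ) : ℤ) * Nat.gcdB t (n + 1) :=
    Nat.gcd_eq_gcd_ab t (n + 1)
  rw [ht.gcd_eq_one] at h2
  have h3 : g = (Nat.gcdA t (n + 1)) • (t • g) + (Nat.gcdB t (n + 1)) • ((n + 1) • g) := by
    calc g = ((1 : ℕ) : ℤ) • g := by simp
      _ = _ := by
        rw [h2, add_smul, mul_comm, mul_smul, mul_comm ((n + 1 : ℕ) : ℤ), mul_smul,
          natCast_zsmul, natCast_zsmul]
  rw [h3]
  exact N.add_mem (N.zsmul_mem hg _) (N.zsmul_mem h1 _)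

end IsADS

section GroupRing

open AddMonoidAlgebra

omit [Fintype G] in
theorem coeff_conv (p : ℕ) (A B : Finset G) (u v : G → G) (g : G) :
    ((∑ a ∈ A, single (u a) (1 : ZMod p)) * (∑ b ∈ B, single (v b) (1 : ZMod p))).coeff g =
      (((A ×ˢ B).filter (fun x => u x.1 + v x.2 = g)).card : ZMod p) := by
  rw [Finset.sum_mul_sum]
  simp only [single_mul_single, coeff_sum, Finsupp.finsetSum_apply, coeff_single,
    Finsupp.single_apply, mul_one]
  rw [← Finset.sum_product' A B (fun a b => if u a + v b = g then (1 : ZMod p) else 0),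
    Finset.sum_boole]

omit [AddCommGroup G] [Fintype G] in
theorem coeff_cs (p : ℕ) (A : Finset G) (g : G) :
    (∑ a ∈ A, single a (1 : ZMod p)).coeff g = if g ∈ A then 1 else 0 := by
  simp only [coeff_sum, Finsupp.finsetSum_apply, coeff_single, Finsupp.single_apply]
  rw [Finset.sum_ite_eq']

end GroupRing

namespace IsADS

open AddMonoidAlgebra

open Classical in
theorem conv_neg (h : IsADS n N D) (p : ℕ) (hpn : p ∣ n) :
    (∑ a ∈ D, single a (1 : ZMod p)) * (∑ b ∈ D, single (-b) (1 : ZMod p)) =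
      ∑ g ∈ univ.filter (fun g : G => g ∉ N), single g (1 : ZMod p) := by
  ext g
  rw [coeff_conv p D D (fun x => x) (fun x => -x) g, coeff_cs]
  have h1 : ((D ×ˢ D).filter (fun x => x.1 + -x.2 = g)) =
      ((D ×ˢ D).filter (fun x => x.1 - x.2 = g)) := by simp only [sub_eq_add_neg]
  rw [h1]
  by_cases hg : g ∈ N
  · rw [if_neg (by simp [hg])]
    by_cases hg0 : g = 0
    · subst hg0
      have h2 : ((D ×ˢ D).filter (fun x => x.1 - x.2 = (0 : G))).card = n := by
        rw [← h.card_set]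
        refine Finset.card_bij' (fun x _ => x.1) (fun a _ => (a, a)) ?_ ?_ ?_ ?_
        · intro x hx; rw [mem_filter, mem_product] at hx; exact hx.1.1
        · intro a ha; simp [ha]
        · intro x hx
          rw [mem_filter, sub_eq_zero] at hx
          ext <;> simp [hx.2]
        · intro a ha; rfl
      rw [h2]
      exact (ZMod.natCast_eq_zero_iff n p).mpr hpn
    · rw [h.miss g hg hg0]; simp
  · rw [if_pos (by simp [hg]), h.hit g hg]; simp

open Classical in
theorem conv_sub (h : IsADS n N D) (h0 : ∀ d ∈ D, d ∉ N) (p : ℕ) :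
    (∑ a ∈ D, single a (1 : ZMod p)) *
        (∑ b ∈ univ.filter (fun g : G => g ∈ N), single b (1 : ZMod p)) =
      ∑ g ∈ univ.filter (fun g : G => g ∉ N), single g (1 : ZMod p) := by
  rw [Finset.sum_mul_sum]
  simp only [single_mul_single, mul_one]
  rw [← Finset.sum_product' D _ (fun a b => single (a + b) (1 : ZMod p)),
    ← (h.image_add h0).1, Finset.sum_image (h.image_add h0).2]

open Classical in
theorem conv_all (h : IsADS n N D) (p : ℕ) (hpn : p ∣ n) :
    (∑ a ∈ D, single a (1 : ZMod p)) * (∑ b : G, single b (1 : ZMod p)) = 0 := by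
  ext g
  rw [coeff_conv p D univ (fun x => x) (fun x => x) g]
  have h2 : ((D ×ˢ (univ : Finset G)).filter (fun x => x.1 + x.2 = g)).card = n := by
    rw [← h.card_set]
    refine Finset.card_bij' (fun x _ => x.1) (fun a _ => (a, g - a)) ?_ ?_ ?_ ?_
    · intro x hx; rw [mem_filter, mem_product] at hx; exact hx.1.1
    · intro a ha; simp [ha]
    · intro x hx
      rw [mem_filter] at hx
      ext
      · rfl
      · simp [← hx.2]
    · intro a ha; rfl
  rw [h2, coeff_zero, Finsupp.zero_apply]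
  exact (ZMod.natCast_eq_zero_iff n p).mpr hpn

open Classical in
theorem conv_out (h : IsADS n N D) (h0 : ∀ d ∈ D, d ∉ N) (p : ℕ) (hpn : p ∣ n) :
    (∑ a ∈ D, single a (1 : ZMod p)) *
        (∑ b ∈ univ.filter (fun g : G => g ∉ N), single b (1 : ZMod p)) =
      - ∑ g ∈ univ.filter (fun g : G => g ∉ N), single g (1 : ZMod p) := by
  have h1 := h.conv_all p hpn
  rw [← Finset.sum_filter_add_sum_filter_not (univ : Finset G) (fun g => g ∈ N), mul_add,
    h.conv_sub h0 p] at h1
  exact eq_neg_of_add_eq_zero_right h1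

open Classical in
theorem conv_pow (h : IsADS n N D) (h0 : ∀ d ∈ D, d ∉ N) (p : ℕ) (hpn : p ∣ n) (j : ℕ) :
    (∑ a ∈ D, single a (1 : ZMod p)) ^ j *
        (∑ b ∈ univ.filter (fun g : G => g ∉ N), single b (1 : ZMod p)) =
      (-1) ^ j * ∑ g ∈ univ.filter (fun g : G => g ∉ N), single g (1 : ZMod p) := by
  induction j with
  | zero => simp
  | succ j ih =>
    rw [pow_succ', mul_assoc, ih, mul_left_comm, h.conv_out h0 p hpn, pow_succ]
    ring

open Classical in
/-- the number of representations `g = p a - b` is `1` modulo `p` for `g` outside `N`. -/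
theorem card_mod (h : IsADS n N D) (h0 : ∀ d ∈ D, d ∉ N) {p : ℕ} (hp : p.Prime) (hpn : p ∣ n)
    {g : G} (hg : g ∉ N) :
    (((D ×ˢ D).filter (fun x => p • x.1 - x.2 = g)).card : ZMod p) = 1 := by
  have : Fact p.Prime := ⟨hp⟩
  have : CharP (AddMonoidAlgebra (ZMod p) G) p :=
    charP_of_injective_algebraMap (algebraMap (ZMod p) (AddMonoidAlgebra (ZMod p) G)).injective p
  have : ExpChar (AddMonoidAlgebra (ZMod p) G) p := ExpChar.prime hp
  have h1 : (∑ a ∈ D, single a (1 : ZMod p)) ^ p = ∑ a ∈ D, single (p • a) (1 : ZMod p) := by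
    rw [sum_pow_char]
    refine Finset.sum_congr rfl fun a _ => ?_
    rw [single_pow, one_pow]
  have h2 : (∑ a ∈ D, single (p • a) (1 : ZMod p)) * (∑ b ∈ D, single (-b) (1 : ZMod p)) =
      ∑ g ∈ univ.filter (fun g : G => g ∉ N), single g (1 : ZMod p) := by
    rw [← h1]
    obtain ⟨k, hk⟩ : ∃ k, p = k + 1 := ⟨p - 1, by have := hp.two_le; omega⟩
    have h3 : ((-1 : AddMonoidAlgebra (ZMod p) G)) ^ k = 1 := by
      have h4 : ((-1 : ZMod p)) ^ k = 1 := by
        have := ZMod.pow_card_sub_one_eq_one (p := p) (a := -1) (neg_ne_zero.mpr one_ne_zero)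
        rwa [show p - 1 = k by omega] at this
      have h5 := congrArg (algebraMap (ZMod p) (AddMonoidAlgebra (ZMod p) G)) h4
      rwa [map_pow, map_neg, map_one] at h5
    have h6 := h.conv_pow h0 p hpn k
    rw [h3, one_mul, ← h.conv_neg p hpn] at h6
    rw [← h.conv_neg p hpn]
    calc (∑ a ∈ D, single a (1 : ZMod p)) ^ p * (∑ b ∈ D, single (-b) (1 : ZMod p))
        = (∑ a ∈ D, single a (1 : ZMod p)) ^ (k + 1) * (∑ b ∈ D, single (-b) (1 : ZMod p)) := by
          rw [← hk]
      _ = (∑ a ∈ D, single a (1 : ZMod p)) ^ k * ((∑ a ∈ D, single a (1 : ZMod p)) *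
            (∑ b ∈ D, single (-b) (1 : ZMod p))) := by rw [pow_succ, mul_assoc]
      _ = _ := h6
  have h7 := congrArg (fun x => x.coeff g) h2
  rw [coeff_conv p D D (fun x => p • x) (fun x => -x) g, coeff_cs, if_pos (by simp [hg])] at h7
  simpa only [sub_eq_add_neg] using h7

open Classical in
theorem card_in (h : IsADS n N D) (h0 : ∀ d ∈ D, d ∉ N) {t : ℕ} (ht : Nat.Coprime t (n + 1)) :
    ((D ×ˢ D).filter (fun x => t • x.1 - x.2 ∈ N)).card = n := by
  rw [← h.card_set]
  have key : ∀ a ∈ D, ∃ b ∈ D, t • a - b ∈ N := fun a ha =>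
    h.exists_coset h0 (fun hc => h0 a ha ((h.nsmul_mem_iff ht a).mp hc))
  refine Finset.card_nbij (fun x => x.1) ?_ ?_ ?_
  · intro x hx; rw [mem_coe, mem_filter, mem_product] at hx; exact hx.1.1
  · rintro ⟨a, b⟩ hx ⟨c, d⟩ hy hxy
    rw [mem_coe, mem_filter, mem_product] at hx hy
    simp only at hxy hx hy
    subst hxy
    have h1 : b - d ∈ N := by
      have := N.sub_mem hy.2 hx.2
      simpa using this
    rw [h.eq_of_sub_mem hx.1.2 hy.1.2 h1]
  · intro a ha
    obtain ⟨b, hb, hab⟩ := key a ha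
    exact ⟨(a, b), by simp [hb, hab, mem_coe.mp ha], rfl⟩

open Classical in
/-- For `g` outside `N` there is exactly one representation `g = p a - b`. -/
theorem inj_out (h : IsADS n N D) (h0 : ∀ d ∈ D, d ∉ N) {p : ℕ} (hp : p.Prime) (hpn : p ∣ n) :
    ∀ x ∈ (D ×ˢ D), ∀ y ∈ (D ×ˢ D), p • x.1 - x.2 ∉ N → p • x.1 - x.2 = p • y.1 - y.2 →
      x = y := by
  have hcop : Nat.Coprime p (n + 1) := by
    rw [Nat.Prime.coprime_iff_not_dvd hp]
    intro hc
    have := (Nat.dvd_add_right hpn).mp hc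
    exact hp.one_lt.ne' (Nat.dvd_one.mp this)
  have hP : ((D ×ˢ D).filter (fun x => p • x.1 - x.2 ∉ N)).card ≤
      (univ.filter (fun g : G => g ∉ N)).card := by
    have h1 := Finset.card_filter_add_card_filter_not (s := D ×ˢ D)
      (fun x : G × G => p • x.1 - x.2 ∈ N)
    rw [h.card_in h0 hcop, card_product, h.card_set] at h1
    rw [h.card_out]
    obtain ⟨m, rfl⟩ : ∃ m, n = m + 1 := ⟨n - 1, by have := h.two_le; omega⟩
    have : (m + 1) * (m + 1) = (m + 1) + (m + 1) * m := by ring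
    rw [Nat.add_sub_cancel]
    omega
  have hsurj := Finset.inj_on_of_surj_on_of_card_le
    (s := (D ×ˢ D).filter (fun x => p • x.1 - x.2 ∉ N)) (t := univ.filter (fun g : G => g ∉ N))
    (fun x _ => p • x.1 - x.2) (by
      intro x hx
      rw [mem_filter] at hx ⊢
      exact ⟨mem_univ _, hx.2⟩) (by
      intro g hg
      rw [mem_filter] at hg
      have h1 := h.card_mod h0 hp hpn hg.2
      have h2 : ((D ×ˢ D).filter (fun x => p • x.1 - x.2 = g)).Nonempty := by
        rw [Finset.nonempty_iff_ne_empty]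
        intro hc
        rw [hc] at h1
        have : Fact p.Prime := ⟨hp⟩
        simp at h1
      obtain ⟨x, hx⟩ := h2
      rw [mem_filter] at hx
      exact ⟨x, by rw [mem_filter, hx.2]; exact ⟨hx.1, hg.2⟩, hx.2⟩) hP
  intro x hx y hy hxN hxy
  exact hsurj (by rw [mem_filter]; exact ⟨hx, hxN⟩) (by rw [mem_filter, ← hxy]; exact ⟨hy, hxN⟩) hxy

/-- Multiplier theorem: a prime divisor of the order is a multiplier. -/
theorem prime_multiplier (h : IsADS n N D) (h0 : ∀ d ∈ D, d ∉ N) {p : ℕ} (hp : p.Prime)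
    (hpn : p ∣ n) : ∃ g : G, ∀ d ∈ D, p • d - g ∈ D := by
  have hcop : Nat.Coprime p (n + 1) := by
    rw [Nat.Prime.coprime_iff_not_dvd hp]
    intro hc
    have := (Nat.dvd_add_right hpn).mp hc
    exact hp.one_lt.ne' (Nat.dvd_one.mp this)
  have hne : D.Nonempty := by
    rw [← Finset.card_pos, h.card_set]
    exact lt_of_lt_of_le two_pos h.two_le
  obtain ⟨a, ha⟩ := hne
  obtain ⟨b, hb, hab⟩ := h.exists_coset h0
    (fun hc => h0 a ha ((h.nsmul_mem_iff hcop a).mp hc))
  refine ⟨p • a - b, fun d hd => ?_⟩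
  by_cases hda : d = a
  · subst hda
    simpa using hb
  have h1 : p • (a - d) ∉ N := fun hc =>
    hda (h.eq_of_sub_mem ha hd ((h.nsmul_mem_iff hcop _).mp hc)).symm
  obtain ⟨a', ha', d', hd', he⟩ := h.exists_rep h1
  have h2 : p • a - a' = p • d - d' := by
    rw [smul_sub] at he
    rw [sub_eq_sub_iff_add_eq_add]
    rw [sub_eq_sub_iff_add_eq_add] at he
    rw [← he]
    abel
  have h3 : p • a - a' ∈ N := by
    by_contra hc
    have h4 := h.inj_out h0 hp hpn (a, a') (by simp [ha, ha']) (d, d') (by simp [hd, hd']) hc h2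
    exact hda (Prod.mk.inj h4).1.symm
  have h5 : a' = b := by
    apply h.eq_of_sub_mem ha' hb
    have := N.sub_mem hab h3
    simpa using this
  subst h5
  rw [h2]
  simpa using hd'

/-- Products of prime divisors of the order are multipliers. -/
theorem multiplier (h : IsADS n N D) (h0 : ∀ d ∈ D, d ∉ N) {t : ℕ} (ht0 : t ≠ 0)
    (ht : ∀ p : ℕ, p.Prime → p ∣ t → p ∣ n) : ∃ g : G, ∀ d ∈ D, t • d - g ∈ D := by
  induction t using Nat.recOnMul with
  | zero => exact absurd rfl ht0
  | one => exact ⟨0, fun d hd => by simpa using hd⟩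
  | prime p hp => exact h.prime_multiplier h0 hp (ht p hp dvd_rfl)
  | mul a b iha ihb =>
    have ha0 : a ≠ 0 := by rintro rfl; simp at ht0
    have hb0 : b ≠ 0 := by rintro rfl; simp at ht0
    obtain ⟨g, hg⟩ := iha ha0 (fun p hp hpa => ht p hp (hpa.mul_right b))
    obtain ⟨k, hk⟩ := ihb hb0 (fun p hp hpb => ht p hp (hpb.mul_left a))
    refine ⟨g + a • k, fun d hd => ?_⟩
    have h1 := hg _ (hk d hd)
    rw [smul_sub, smul_smul] at h1
    have h2 : (a * b) • d - (g + a • k) = (a * b) • d - a • k - g := by abel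
    rw [h2]
    exact h1

end IsADS

end Pool.Agent.H27.ADS
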