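import Pool.Agent.H27.ADS.Mult

/-!
# Multipliers congruent to `-1` force the order to be a square
-/

set_option autoImplicit false

namespace Pool.Agent.H27.ADS

open Finset

theorem isSquare_of_even_padicValNat {n : ℕ} (hn : n ≠ 0)
    (h : ∀ p : ℕ, p.Prime → Even (padicValNat p n)) : IsSquare n := by
  refine ⟨n.factorization.prod (fun p k => p ^ (k / 2)), ?_⟩
  conv_lhs => rw [← Nat.prod_factorization_pow_eq_self hn]
  rw [Finsupp.prod, Finsupp.prod, ← Finset.prod_mul_distrib]
  refine Finset.prod_congr rfl fun p hp => ?_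
  rw [← pow_add]
  congr 1
  have hpp : p.Prime := Nat.prime_of_mem_primeFactors (by rwa [Nat.support_factorization] at hp)
  have h1 := h p hpp
  rw [← Nat.factorization_def n hpp] at h1
  obtain ⟨k, hk⟩ := h1
  rw [hk]
  omega

/-- The ring generated by the `w`-th roots of unity. -/
noncomputable def SR (w : ℕ) : Subalgebra ℤ ℂ := Algebra.adjoin ℤ {z : ℂ | z ^ w = 1}

theorem root_mem {w : ℕ} {z : ℂ} (hz : z ^ w = 1) : z ∈ SR w := Algebra.subset_adjoin hz

theorem SR_isIntegral {w : ℕ} (hw : 0 < w) {z : ℂ} (hz : z ∈ SR w) : IsIntegral ℤ z := by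
  have h1 : SR w ≤ integralClosure ℤ ℂ := by
    apply Algebra.adjoin_le
    intro x hx
    have hx' : x ^ w = 1 := hx
    exact IsIntegral.of_pow hw (by rw [hx']; exact isIntegral_one)
  exact h1 hz

theorem frob {w p f : ℕ} (hp : p.Prime) (hf : w ∣ p ^ f - 1) {y : ℂ} (hy : y ∈ SR w) :
    ∃ r ∈ SR w, y ^ (p ^ f) = y + p * r := by
  induction hy using Algebra.adjoin_induction with
  | mem x hx =>
    refine ⟨0, (SR w).zero_mem, ?_⟩
    obtain ⟨k, hk⟩ := hf
    have h1 : p ^ f = w * k + 1 := by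
      have := Nat.one_le_pow f p hp.pos
      omega
    have hx' : x ^ w = 1 := hx
    rw [h1, pow_succ, pow_mul, hx', one_pow]
    simp
  | algebraMap r =>
    have h1 : (p : ℤ) ∣ r ^ (p ^ f) - r := by
      have : Fact p.Prime := ⟨hp⟩
      rw [← ZMod.intCast_zmod_eq_zero_iff_dvd]
      push_cast
      rw [ZMod.pow_card_pow, sub_self]
    obtain ⟨c, hc⟩ := h1
    refine ⟨algebraMap ℤ ℂ c, (SR w).algebraMap_mem c, ?_⟩
    have h2 : r ^ (p ^ f) = r + p * c := by linarith
    have h3 := congrArg (algebraMap ℤ ℂ) h2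
    simpa using h3
  | add x y hx hy ihx ihy =>
    obtain ⟨r, hr, hr'⟩ := ihx
    obtain ⟨s, hs, hs'⟩ := ihy
    obtain ⟨c, hc⟩ := exists_add_pow_prime_pow_eq hp (⟨x, hx⟩ : SR w) (⟨y, hy⟩ : SR w) f
    have h1 := congrArg (fun z : SR w => (z : ℂ)) hc
    push_cast at h1
    refine ⟨r + s + x * y * (c : ℂ), (SR w).add_mem ((SR w).add_mem hr hs)
      ((SR w).mul_mem ((SR w).mul_mem hx hy) c.2), ?_⟩
    rw [h1, hr', hs']
    ring
  | mul x y hx hy ihx ihy =>
    obtain ⟨r, hr, hr'⟩ := ihx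
    obtain ⟨s, hs, hs'⟩ := ihy
    have hpm : (p : ℂ) ∈ SR w := by
      have := (SR w).natCast_mem p
      exact this
    refine ⟨x * s + y * r + p * (r * s), ?_, ?_⟩
    · exact (SR w).add_mem ((SR w).add_mem ((SR w).mul_mem hx hs) ((SR w).mul_mem hy hr))
        ((SR w).mul_mem hpm ((SR w).mul_mem hr hs))
    · rw [mul_pow, hr', hs']
      ring

theorem descent {w p : ℕ} (hw : 0 < w) (hp : p.Prime) (hpw : Nat.Coprime p w) {η : ℂ}
    (hη : η ^ w = 1) : ∀ m : ℕ, 0 < m → ∀ y ∈ SR w, η * y ^ 2 = m → Even (padicValNat p m) := by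
  intro m
  induction m using Nat.strong_induction_on with
  | _ m ih =>
    intro hm y hy he
    by_cases hpm : p ∣ m
    swap
    · rw [padicValNat.eq_zero_of_not_dvd hpm]; exact Even.zero
    obtain ⟨m1, rfl⟩ := hpm
    -- a power of p congruent to one
    have hφ : 0 < w.totient := Nat.totient_pos.mpr hw
    have hf : w ∣ p ^ w.totient - 1 := by
      have := Nat.ModEq.pow_totient hpw
      exact (Nat.modEq_iff_dvd' (Nat.one_le_pow _ _ hp.pos)).mp this.symm
    obtain ⟨r, hr, hr'⟩ := frob hp hf hy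
    have hη0 : η ≠ 0 := by
      rintro rfl
      rw [zero_pow hw.ne'] at hη
      exact zero_ne_one hη
    have hη' : η ^ (w - 1) * η = 1 := by
      rw [← pow_succ, Nat.sub_add_cancel hw, hη]
    have hηm : η ∈ SR w := root_mem hη
    have hpmem : ∀ k : ℕ, (k : ℂ) ∈ SR w := fun k => (SR w).natCast_mem k
    have hy2 : y ^ 2 = p * (η ^ (w - 1) * m1) := by
      calc y ^ 2 = (η ^ (w - 1) * η) * y ^ 2 := by rw [hη', one_mul]
        _ = η ^ (w - 1) * (η * y ^ 2) := by ring
        _ = _ := by rw [he]; push_cast; ring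
    have h2 : 2 ≤ p ^ w.totient := by
      calc 2 ≤ p := hp.two_le
        _ = p ^ 1 := (pow_one p).symm
        _ ≤ p ^ w.totient := Nat.pow_le_pow_right hp.pos hφ
    obtain ⟨k, hk⟩ : ∃ k, p ^ w.totient = 2 + k := ⟨_, (Nat.add_sub_of_le h2).symm⟩
    have hy3 : y = p * (η ^ (w - 1) * m1 * y ^ k - r) := by
      have : y ^ (p ^ w.totient) = p * (η ^ (w - 1) * m1) * y ^ k := by
        rw [hk, pow_add, hy2]
      rw [this] at hr'
      linear_combination -hr'
    set y' : ℂ := η ^ (w - 1) * m1 * y ^ k - r with hy'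
    have hy'm : y' ∈ SR w :=
      (SR w).sub_mem ((SR w).mul_mem ((SR w).mul_mem ((SR w).pow_mem hηm _) (hpmem m1))
        ((SR w).pow_mem hy k)) hr
    have hp0 : (p : ℂ) ≠ 0 := by exact_mod_cast hp.ne_zero
    have h4 : η * y' ^ 2 = ((m1 : ℚ) / p : ℚ) := by
      rw [hy3] at he
      push_cast at he ⊢
      rw [eq_div_iff hp0]
      have : (p : ℂ) * (η * y' ^ 2 * p) = p * m1 := by linear_combination he
      exact mul_left_cancel₀ hp0 this
    have h5 : IsIntegral ℤ (η * y' ^ 2) :=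
      SR_isIntegral hw ((SR w).mul_mem hηm ((SR w).pow_mem hy'm 2))
    rw [h4] at h5
    have h6 : IsIntegral ℤ ((m1 : ℚ) / p : ℚ) := by
      rw [show (((m1 : ℚ) / p : ℚ) : ℂ) = algebraMap ℚ ℂ ((m1 : ℚ) / p) from rfl] at h5
      exact (isIntegral_algebraMap_iff (algebraMap ℚ ℂ).injective).mp h5
    obtain ⟨z, hz⟩ := (IsIntegrallyClosed.isIntegral_iff (R := ℤ) (K := ℚ)).mp h6
    have hpq : (p : ℚ) ≠ 0 := by exact_mod_cast hp.ne_zero
    have hz' : (z : ℚ) = (m1 : ℚ) / p := by simpa using hz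
    have h7 : z * p = m1 := by
      rw [eq_div_iff hpq] at hz'
      exact_mod_cast hz'
    have hm1 : 0 < m1 := Nat.pos_of_mul_pos_left hm
    have hzpos : 0 < z := by
      by_contra hc
      have : z * p ≤ 0 := mul_nonpos_of_nonpos_of_nonneg (not_lt.mp hc) (by positivity)
      rw [h7] at this
      have : (0 : ℤ) < m1 := by exact_mod_cast hm1
      omega
    obtain ⟨m2, rfl⟩ := Int.eq_ofNat_of_zero_le hzpos.le
    have h8 : m1 = p * m2 := by
      have : (m2 : ℤ) * p = m1 := h7
      have h9 : m2 * p = m1 := by exact_mod_cast this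
      rw [← h9, mul_comm]
    have hm2 : 0 < m2 := by exact_mod_cast hzpos
    subst h8
    have : Fact p.Prime := ⟨hp⟩
    have h10 : Even (padicValNat p m2) := by
      refine ih m2 ?_ hm2 y' hy'm ?_
      · have := hp.two_le
        nlinarith
      · rw [h4]
        push_cast
        field_simp
    rw [padicValNat.mul hp.ne_zero (by positivity), padicValNat.mul hp.ne_zero hm2.ne',
      padicValNat_self]
    obtain ⟨j, hj⟩ := h10
    exact ⟨j + 1, by omega⟩

variable {G : Type} [AddCommGroup G] [Fintype G] [DecidableEq G]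
variable {n : ℕ} {N : AddSubgroup G} {D : Finset G}

omit [DecidableEq G] in
open Classical in
theorem sum_out_eq_zero {χ : AddChar G ℂ} {k : G} (hk : k ∈ N) (hχ : χ k ≠ 1) :
    ∑ g ∈ univ.filter (fun g : G => g ∉ N), χ g = 0 := by
  have h1 : ∑ g ∈ univ.filter (fun g : G => g ∉ N), χ g =
      ∑ g ∈ univ.filter (fun g : G => g ∉ N), χ k * χ g := by
    refine Finset.sum_bij' (fun g _ => g - k) (fun g _ => g + k) ?_ ?_ ?_ ?_ ?_
    · intro g hg
      rw [mem_filter] at hg ⊢
      refine ⟨mem_univ _, fun hc => hg.2 ?_⟩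
      simpa using N.add_mem hc hk
    · intro g hg
      rw [mem_filter] at hg ⊢
      refine ⟨mem_univ _, fun hc => hg.2 ?_⟩
      simpa using N.sub_mem hc hk
    · intro g _; simp
    · intro g _; simp
    · intro g _
      rw [← AddChar.map_add_eq_mul]
      congr 1
      abel
  rw [← Finset.mul_sum] at h1
  have h2 : (χ k - 1) * ∑ g ∈ univ.filter (fun g : G => g ∉ N), χ g = 0 := by
    linear_combination -h1
  rcases mul_eq_zero.mp h2 with h3 | h3
  · exact absurd (sub_eq_zero.mp h3) hχ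
  · exact h3

namespace IsADS

open Classical in
theorem normSq_char (h : IsADS n N D) {χ : AddChar G ℂ} {k : G} (hk : k ∈ N) (hχ : χ k ≠ 1) :
    (∑ d ∈ D, χ d) * (∑ d ∈ D, χ (-d)) = n := by
  have h1 : (∑ d ∈ D, χ d) * (∑ d ∈ D, χ (-d)) = ∑ x ∈ D ×ˢ D, χ (x.1 - x.2) := by
    rw [Finset.sum_mul_sum, Finset.sum_product]
    refine Finset.sum_congr rfl fun a _ => Finset.sum_congr rfl fun b _ => ?_
    rw [sub_eq_add_neg, AddChar.map_add_eq_mul]
  rw [h1, ← Finset.sum_fiberwise (D ×ˢ D) (fun x => x.1 - x.2)]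
  have h2 : ∀ g : G, ∑ x ∈ (D ×ˢ D).filter (fun x => x.1 - x.2 = g), χ (x.1 - x.2) =
      (if g = 0 then (n : ℂ) else 0) + (if g ∉ N then χ g else 0) := by
    intro g
    have h3 : ∑ x ∈ (D ×ˢ D).filter (fun x => x.1 - x.2 = g), χ (x.1 - x.2) =
        ((D ×ˢ D).filter (fun x => x.1 - x.2 = g)).card * χ g := by
      rw [Finset.sum_congr rfl (g := fun _ => χ g), Finset.sum_const, nsmul_eq_mul]
      intro x hx
      rw [mem_filter] at hx
      rw [hx.2]
    rw [h3]
    by_cases hg : g ∈ N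
    · by_cases hg0 : g = 0
      · subst hg0
        have h4 : ((D ×ˢ D).filter (fun x => x.1 - x.2 = (0 : G))).card = n := by
          rw [← h.card_set]
          refine Finset.card_bij' (fun x _ => x.1) (fun a _ => (a, a)) ?_ ?_ ?_ ?_
          · intro x hx; rw [mem_filter, mem_product] at hx; exact hx.1.1
          · intro a ha; simp [ha]
          · intro x hx
            rw [mem_filter, sub_eq_zero] at hx
            ext <;> simp [hx.2]
          · intro a ha; rfl
        rw [h4]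
        simp [N.zero_mem]
      · rw [h.miss g hg hg0]
        simp [hg, hg0]
    · have hg0 : g ≠ 0 := by rintro rfl; exact hg N.zero_mem
      rw [h.hit g hg]
      simp [hg, hg0]
  rw [Finset.sum_congr rfl (fun g _ => h2 g), Finset.sum_add_distrib, Finset.sum_ite_eq',
    if_pos (mem_univ _), ← Finset.sum_filter, sum_out_eq_zero hk hχ, add_zero]

theorem card_coprime (h : IsADS n N D) {t : ℕ} (ht : ∀ p : ℕ, p.Prime → p ∣ t → p ∣ n) :
    Nat.Coprime t (n ^ 2 - 1) := by
  rw [Nat.coprime_iff_gcd_eq_one]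
  by_contra hc
  obtain ⟨p, hp, hpd⟩ := Nat.exists_prime_and_dvd hc
  have h1 := ht p hp (hpd.trans (Nat.gcd_dvd_left _ _))
  have h2 := hpd.trans (Nat.gcd_dvd_right _ _)
  have h3 : p ∣ n ^ 2 := dvd_pow h1 two_ne_zero
  have h4 : 1 ≤ n ^ 2 := Nat.one_le_pow _ _ (by have := h.two_le; omega)
  have h5 : p ∣ n ^ 2 - (n ^ 2 - 1) := Nat.dvd_sub h3 h2
  rw [show n ^ 2 - (n ^ 2 - 1) = 1 by omega] at h5
  exact hp.one_lt.ne' (Nat.dvd_one.mp h5)

/-- **Extended Mann test.**  If a product `t` of prime divisors of the order satisfies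
`t = -1` modulo `w`, where `w` is an exponent of a character which is nontrivial on `N`,
then the order is a square. -/
theorem isSquare_of_char (h : IsADS n N D) (h0 : ∀ d ∈ D, d ∉ N) {w t : ℕ} (hw : 0 < w)
    (hwn : Nat.Coprime n w) (ht0 : t ≠ 0) (ht : ∀ p : ℕ, p.Prime → p ∣ t → p ∣ n)
    (htw : w ∣ t + 1) {χ : AddChar G ℂ} (hχw : ∀ g, χ g ^ w = 1) {k : G} (hk : k ∈ N)
    (hχ : χ k ≠ 1) : IsSquare n := by
  obtain ⟨g, hg⟩ := h.multiplier h0 ht0 ht
  have hcop : Nat.Coprime t (n + 1) := by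
    have h1 := h.card_coprime ht
    have h2 : n + 1 ∣ n ^ 2 - 1 := by
      refine ⟨n - 1, ?_⟩
      have := h.two_le
      obtain ⟨m, rfl⟩ : ∃ m, n = m + 1 := ⟨n - 1, by omega⟩
      have h3 : (m + 1) ^ 2 = (m + 1 + 1) * m + 1 := by ring
      rw [h3]
      simp
    exact Nat.Coprime.coprime_dvd_right h2 h1
  set A : ℂ := ∑ d ∈ D, χ d with hA
  -- the map `d ↦ t d - g` permutes `D`
  have hinj : Set.InjOn (fun d => t • d - g) (D : Set G) := by
    intro a ha b hb hab
    have h1 : t • (a - b) = 0 := by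
      rw [smul_sub, sub_eq_zero]
      exact sub_left_injective hab
    apply h.eq_of_sub_mem ha hb
    rw [← h.nsmul_mem_iff hcop, h1]
    exact N.zero_mem
  have himg : D.image (fun d => t • d - g) = D := by
    apply Finset.eq_of_subset_of_card_le
    · intro x hx
      rw [mem_image] at hx
      obtain ⟨d, hd, rfl⟩ := hx
      exact hg d hd
    · rw [Finset.card_image_of_injOn hinj]
  have h1 : ∑ d ∈ D, χ (t • d - g) = A := by
    rw [hA]
    conv_rhs => rw [← himg]
    rw [Finset.sum_image hinj]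
  have h2 : ∀ d : G, χ (-d) = χ g * χ (t • d - g) := by
    intro d
    rw [← AddChar.map_add_eq_mul]
    obtain ⟨c, hc⟩ := htw
    have h3 : χ ((t + 1) • d) = 1 := by
      rw [hc, AddChar.map_nsmul_eq_pow, pow_mul, hχw, one_pow]
    calc χ (-d) = χ (-d) * χ ((t + 1) • d) := by rw [h3, mul_one]
      _ = χ (-d + (t + 1) • d) := by rw [AddChar.map_add_eq_mul]
      _ = _ := by
        congr 1
        rw [add_smul, one_smul]
        abel
  have h3 : ∑ d ∈ D, χ (-d) = χ g * A := by
    rw [← h1, Finset.mul_sum]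
    exact Finset.sum_congr rfl fun d _ => h2 d
  have h4 : χ g * A ^ 2 = n := by
    have := h.normSq_char hk hχ
    rw [h3, ← hA] at this
    rw [← this]
    ring
  have hAm : A ∈ SR w := (SR w).sum_mem fun d _ => root_mem (hχw d)
  have hn : 0 < n := by have := h.two_le; omega
  apply isSquare_of_even_padicValNat hn.ne'
  intro p hp
  by_cases hpn : p ∣ n
  · exact descent hw hp (Nat.Coprime.coprime_dvd_left hpn hwn) (hχw g) n hn A hAm h4
  · rw [padicValNat.eq_zero_of_not_dvd hpn]; exact Even.zero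

/-- Every affine difference set has a translate which misses `N`. -/
theorem exists_normalised (h : IsADS n N D) :
    ∃ D' : Finset G, IsADS n N D' ∧ ∀ d ∈ D', d ∉ N := by
  classical
  have hc : ∃ c : G, ∀ d ∈ D, d - c ∉ N := by
    by_contra hcon
    push Not at hcon
    have h1 : Function.Surjective (fun d : D => (QuotientAddGroup.mk (d : G) : G ⧸ N)) := by
      intro q
      obtain ⟨c, rfl⟩ := QuotientAddGroup.mk_surjective q
      obtain ⟨d, hd, hdc⟩ := hcon c
      refine ⟨⟨d, hd⟩, ?_⟩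
      rw [QuotientAddGroup.eq]
      have := N.neg_mem hdc
      simpa [sub_eq_add_neg, add_comm] using this
    have h2 := Nat.card_le_card_of_surjective _ h1
    have h3 : Nat.card (G ⧸ N) = n + 1 := h.index_eq
    have h4 : Nat.card D = n := by simp [h.card_set]
    omega
  obtain ⟨c, hc⟩ := hc
  have key : ∀ g : G, (((D.image (fun d => d - c)) ×ˢ (D.image (fun d => d - c))).filter
      (fun p => p.1 - p.2 = g)).card = ((D ×ˢ D).filter (fun p => p.1 - p.2 = g)).card := by
    intro g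
    refine Finset.card_bij' (fun x _ => (x.1 + c, x.2 + c)) (fun x _ => (x.1 - c, x.2 - c))
      ?_ ?_ ?_ ?_
    · rintro ⟨a, b⟩ hx
      rw [mem_filter, mem_product, mem_image, mem_image] at hx
      obtain ⟨⟨⟨a', ha', hae⟩, ⟨b', hb', hbe⟩⟩, hab⟩ := hx
      simp only at hae hbe hab
      subst hae hbe
      simp only [sub_add_cancel, mem_filter, mem_product]
      exact ⟨⟨ha', hb'⟩, by simpa using hab⟩
    · rintro ⟨a, b⟩ hx
      rw [mem_filter, mem_product] at hx
      simp only [mem_filter, mem_product, mem_image]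
      exact ⟨⟨⟨a, hx.1.1, rfl⟩, ⟨b, hx.1.2, rfl⟩⟩, by simpa using hx.2⟩
    · rintro ⟨a, b⟩ _; simp
    · rintro ⟨a, b⟩ _; simp
  refine ⟨D.image (fun d => d - c), ⟨h.two_le, h.card_group, h.card_sub, ?_, ?_, ?_⟩, ?_⟩
  · rw [Finset.card_image_of_injective _ (sub_left_injective), h.card_set]
  · intro g hg; rw [key, h.hit g hg]
  · intro g hg hg0; rw [key, h.miss g hg hg0]
  · intro d hd
    rw [mem_image] at hd
    obtain ⟨d', hd', rfl⟩ := hd
    exact hc d' hd'

end IsADS

end Pool.Agent.H27.ADS
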