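import Pool.Agent.H27.ADS.Square

/-!
# Arithmetic restrictions on the order of an abelian affine difference set
-/

set_option autoImplicit false

namespace Pool.Agent.H27.ADS

open Finset

variable {G : Type} [AddCommGroup G] [Fintype G] [DecidableEq G]
variable {n : ℕ} {N : AddSubgroup G} {D : Finset G}

namespace IsADS

/-- a character of odd prime order `q`, `q` dividing `n - 1`, nontrivial on `N`. -/
theorem exists_char_odd (h : IsADS n N D) {q : ℕ} (hq : q.Prime) (hq2 : q ≠ 2)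
    (hqn : q ∣ n - 1) :
    ∃ χ : AddChar G ℂ, (∀ g, χ g ^ q = 1) ∧ ∃ k ∈ N, χ k ≠ 1 := by
  have : Fact q.Prime := ⟨hq⟩
  have hn := h.two_le
  have h1 : q ∣ Nat.card (AddChar G ℂ) := by
    rw [Nat.card_eq_fintype_card, AddChar.card_eq, ← Nat.card_eq_fintype_card, h.card_group]
    obtain ⟨m, rfl⟩ : ∃ m, n = m + 1 := ⟨n - 1, by omega⟩
    have h3 : (m + 1) ^ 2 = m * (m + 1 + 1) + 1 := by ring
    rw [h3]
    simp only [Nat.add_sub_cancel] at hqn ⊢
    exact hqn.mul_right _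
  obtain ⟨χ, hχ⟩ := exists_prime_orderOf_dvd_card' q h1
  refine ⟨χ, fun g => ?_, ?_⟩
  · rw [← AddChar.pow_apply, ← hχ, pow_orderOf_eq_one, AddChar.one_apply]
  · by_contra hc
    push Not at hc
    have h2 : χ ^ (n + 1) = 1 := by
      ext g
      rw [AddChar.pow_apply, ← AddChar.map_nsmul_eq_pow, hc _ (h.index_nsmul_mem g),
        AddChar.one_apply]
    have h3 := orderOf_dvd_of_pow_eq_one h2
    rw [hχ] at h3
    have h4 := Nat.dvd_sub h3 hqn
    rw [show n + 1 - (n - 1) = 2 by omega] at h4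
    exact hq2 ((Nat.prime_dvd_prime_iff_eq hq Nat.prime_two).mp h4)

/-- a character of two-power order, nontrivial on `N`, for odd `n`. -/
theorem exists_char_two (h : IsADS n N D) (hodd : n % 2 = 1) {t u : ℕ} (hu : u % 2 = 1)
    (htu : n ^ 2 - 1 = 2 ^ t * u) :
    ∃ χ : AddChar G ℂ, (∀ g, χ g ^ (2 ^ t) = 1) ∧ ∃ k ∈ N, χ k ≠ 1 := by
  have : Fact (Nat.Prime 2) := ⟨Nat.prime_two⟩
  have h1 : 2 ∣ Nat.card N := by rw [h.card_sub]; omega
  obtain ⟨k, hk⟩ := exists_prime_addOrderOf_dvd_card' 2 h1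
  have hk0 : (k : G) ≠ 0 := by
    intro hc
    have : k = 0 := Subtype.ext hc
    rw [this, addOrderOf_zero] at hk
    omega
  have hk2 : 2 • (k : G) = 0 := by
    have h2 : 2 • k = 0 := by rw [← hk]; exact addOrderOf_nsmul_eq_zero k
    have := congrArg (fun x : N => (x : G)) h2
    simpa using this
  obtain ⟨χ, hχ⟩ := AddChar.exists_apply_ne_zero.mpr hk0
  have h3 : χ (k : G) = -1 := by
    have h4 : χ (k : G) ^ 2 = 1 := by
      rw [← AddChar.map_nsmul_eq_pow, hk2, AddChar.map_zero_eq_one]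
    rw [sq] at h4
    rcases mul_self_eq_one_iff.mp h4 with h5 | h5
    · exact absurd h5 hχ
    · exact h5
  refine ⟨χ ^ u, fun g => ?_, k, k.2, ?_⟩
  · rw [AddChar.pow_apply, ← pow_mul, mul_comm, ← htu, ← AddChar.map_nsmul_eq_pow,
      ← h.card_group, card_nsmul_eq_zero', AddChar.map_zero_eq_one]
  · rw [AddChar.pow_apply, h3, Odd.neg_one_pow (Nat.odd_iff.mpr hu)]
    norm_num

/-- for `n = 1` modulo `4` there is such a character of order dividing `4`. -/
theorem exists_char_four (h : IsADS n N D) (hmod : n % 4 = 1) :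
    ∃ χ : AddChar G ℂ, (∀ g, χ g ^ 4 = 1) ∧ ∃ k ∈ N, χ k ≠ 1 := by
  have hn := h.two_le
  have h1 : n ^ 2 - 1 ≠ 0 := by
    have : 2 ^ 2 ≤ n ^ 2 := Nat.pow_le_pow_left hn 2
    omega
  obtain ⟨t, u, hu, htu⟩ := Nat.exists_eq_two_pow_mul_odd h1
  obtain ⟨χ, hχ, k, hk, hχk⟩ := h.exists_char_two (by omega) (Nat.odd_iff.mp hu) htu
  have key : ∀ t : ℕ, ∀ χ : AddChar G ℂ, (∀ g, χ g ^ (2 ^ t) = 1) → (∃ k ∈ N, χ k ≠ 1) →
      ∃ χ : AddChar G ℂ, (∀ g, χ g ^ 4 = 1) ∧ ∃ k ∈ N, χ k ≠ 1 := by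
    intro t
    induction t with
    | zero =>
      rintro χ hχ ⟨k, hk, hχk⟩
      exact absurd (by simpa using hχ k) hχk
    | succ t ih =>
      intro χ hχ hne
      by_cases hex : ∃ k ∈ N, (χ ^ 2) k ≠ 1
      · refine ih (χ ^ 2) (fun g => ?_) hex
        rw [AddChar.pow_apply, ← pow_mul, ← pow_succ']
        exact hχ g
      · push Not at hex
        refine ⟨χ, fun g => ?_, hne⟩
        have h2 : χ g ^ (2 * (n + 1)) = 1 := by
          have h3 := hex _ (h.index_nsmul_mem g)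
          rw [AddChar.pow_apply, AddChar.map_nsmul_eq_pow, ← pow_mul] at h3
          rw [mul_comm]
          exact h3
        have h4 := pow_gcd_eq_one.mpr ⟨h2, hχ g⟩
        have h5 : Nat.gcd (2 * (n + 1)) (2 ^ (t + 1)) ∣ 4 := by
          obtain ⟨c, hc⟩ : ∃ c, 2 * (n + 1) = 4 * (2 * c + 1) := ⟨n / 4, by omega⟩
          rw [hc]
          have h6 : Nat.Coprime (2 * c + 1) (2 ^ (t + 1)) :=
            Nat.Coprime.pow_right _ (by simp [Nat.coprime_two_right])
          rw [Nat.Coprime.gcd_mul_right_cancel _ h6]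
          exact Nat.gcd_dvd_left _ _
        obtain ⟨c, hc⟩ := h5
        rw [hc, pow_mul, h4, one_pow]
  exact key t χ hχ ⟨k, hk, hχk⟩

/-- nonsquare order: prime divisors of `n` are squares modulo odd prime divisors of `n - 1`. -/
theorem isSquare_zmod (h : IsADS n N D) (h0 : ∀ d ∈ D, d ∉ N) (hns : ¬ IsSquare n)
    {p q : ℕ} (hp : p.Prime) (hpn : p ∣ n) (hq : q.Prime) (hq2 : q ≠ 2) (hqn : q ∣ n - 1) :
    IsSquare (p : ZMod q) := by
  have : Fact q.Prime := ⟨hq⟩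
  have hn := h.two_le
  by_contra hc
  have hnq : Nat.Coprime n q := by
    rw [Nat.coprime_comm, Nat.Prime.coprime_iff_not_dvd hq]
    intro hc'
    have h4 := Nat.dvd_sub hc' hqn
    rw [show n - (n - 1) = 1 by omega] at h4
    exact hq.one_lt.ne' (Nat.dvd_one.mp h4)
  have hpq : (p : ZMod q) ≠ 0 := by
    intro hc'
    rw [ZMod.natCast_eq_zero_iff] at hc'
    have h5 := Nat.Coprime.coprime_dvd_left hpn hnq
    have h6 := Nat.Coprime.eq_one_of_dvd h5.symm hc'
    exact hq.one_lt.ne' h6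
  have h1 : (p : ZMod q) ^ (q / 2) = -1 := by
    rcases ZMod.pow_div_two_eq_neg_one_or_one q hpq with h2 | h2
    · exact absurd ((ZMod.euler_criterion q hpq).mpr h2) hc
    · exact h2
  have h2 : q ∣ p ^ (q / 2) + 1 := by
    rw [← ZMod.natCast_eq_zero_iff]
    push_cast
    rw [h1]
    ring
  obtain ⟨χ, hχ, k, hk, hχk⟩ := h.exists_char_odd hq hq2 hqn
  refine hns (h.isSquare_of_char h0 hq.pos hnq (pow_ne_zero _ hp.ne_zero) ?_ h2 hχ hk hχk)
  intro r hr hrd
  have := hr.dvd_of_dvd_pow hrd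
  rwa [(Nat.prime_dvd_prime_iff_eq hr hp).mp this]

/-- even case -/
theorem even_case (h : IsADS n N D) (h0 : ∀ d ∈ D, d ∉ N) (hns : ¬ IsSquare n)
    (heven : n % 2 = 0) {q : ℕ} (hq : q.Prime) (hqn : q ∣ n - 1) : q % 8 = 1 ∨ q % 8 = 7 := by
  have : Fact q.Prime := ⟨hq⟩
  have hn := h.two_le
  have hq2 : q ≠ 2 := by
    rintro rfl
    omega
  have h1 := h.isSquare_zmod h0 hns Nat.prime_two (by omega : 2 ∣ n) hq hq2 hqn
  exact (ZMod.exists_sq_eq_two_iff hq2).mp (by exact_mod_cast h1)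

/-- `n = 1` modulo `4`, nonsquare: all prime divisors are `1` modulo `4`. -/
theorem one_mod_four_case (h : IsADS n N D) (h0 : ∀ d ∈ D, d ∉ N) (hns : ¬ IsSquare n)
    (hmod : n % 4 = 1) {p : ℕ} (hp : p.Prime) (hpn : p ∣ n) : p % 4 = 1 := by
  have hp2 : p % 2 = 1 := by
    rcases hp.eq_two_or_odd with h1 | h1
    · subst h1; omega
    · exact h1
  by_contra hc
  have h4 : 4 ∣ p + 1 := by omega
  obtain ⟨χ, hχ, k, hk, hχk⟩ := h.exists_char_four hmod
  refine hns (h.isSquare_of_char h0 (by norm_num) ?_ hp.ne_zero ?_ h4 hχ hk hχk)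
  · have : Nat.Coprime n (2 ^ 2) :=
      Nat.Coprime.pow_right _ (by rw [Nat.coprime_two_right, Nat.odd_iff]; omega)
    exact this
  · intro r hr hrd
    rwa [(Nat.prime_dvd_prime_iff_eq hr hp).mp hrd]

end IsADS

theorem jacobi_eq_one (p : ℕ) (m : ℕ) (hm : m ≠ 0)
    (h : ∀ q : ℕ, (hq : q.Prime) → q ∣ m → IsSquare (p : ZMod q) ∧ ¬ q ∣ p) :
    jacobiSym (p : ℤ) m = 1 := by
  induction m using Nat.recOnMul with
  | zero => exact absurd rfl hm
  | one => simp
  | prime q hq =>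
    have : Fact q.Prime := ⟨hq⟩
    have h1 := h q hq dvd_rfl
    rw [← jacobiSym.legendreSym.to_jacobiSym, legendreSym.eq_one_iff]
    · exact_mod_cast h1.1
    · intro hc
      apply h1.2
      rw [← ZMod.natCast_eq_zero_iff]
      exact_mod_cast hc
  | mul a b iha ihb =>
    have ha0 : a ≠ 0 := by rintro rfl; simp at hm
    have hb0 : b ≠ 0 := by rintro rfl; simp at hm
    have : NeZero a := ⟨ha0⟩
    have : NeZero b := ⟨hb0⟩
    rw [jacobiSym.mul_right, iha ha0 (fun q hq hqa => h q hq (hqa.mul_right b)),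
      ihb hb0 (fun q hq hqb => h q hq (hqb.mul_left a)), one_mul]

namespace IsADS

/-- `n = 1` modulo `4`, nonsquare, with an odd power of two exactly dividing `n - 1`:
all prime divisors are `1` modulo `8`. -/
theorem one_mod_eight_case (h : IsADS n N D) (h0 : ∀ d ∈ D, d ∉ N) (hns : ¬ IsSquare n)
    (hmod : n % 4 = 1) {k m : ℕ} (hk : k % 2 = 1) (hm : m % 2 = 1) (hkm : n - 1 = 2 ^ k * m)
    {p : ℕ} (hp : p.Prime) (hpn : p ∣ n) : p % 8 = 1 := by
  have hn := h.two_le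
  have hp4 := h.one_mod_four_case h0 hns hmod hp hpn
  have hm0 : m ≠ 0 := by rintro rfl; simp at hm
  have h1 : jacobiSym (p : ℤ) m = 1 := by
    refine jacobi_eq_one p m hm0 fun q hq hqm => ?_
    have hq2 : q ≠ 2 := by rintro rfl; omega
    have hqn : q ∣ n - 1 := by rw [hkm]; exact hqm.mul_left _
    refine ⟨h.isSquare_zmod h0 hns hp hpn hq hq2 hqn, fun hc => ?_⟩
    have h2 := Nat.dvd_sub (hc.trans hpn) hqn
    rw [show n - (n - 1) = 1 by omega] at h2
    exact hq.one_lt.ne' (Nat.dvd_one.mp h2)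
  have h2 : jacobiSym (m : ℤ) p = 1 := by
    rw [← jacobiSym.quadratic_reciprocity_one_mod_four hp4 (Nat.odd_iff.mpr hm)]
    exact h1
  have h3 : jacobiSym (((n - 1 : ℕ)) : ℤ) p = jacobiSym (-1) p := by
    apply jacobiSym.mod_left'
    have h4 : ((n - 1 : ℕ) : ℤ) = (n : ℤ) - 1 := by
      rw [Nat.cast_sub (by omega)]; simp
    rw [h4]
    obtain ⟨c, hc⟩ := hpn
    rw [hc]
    push_cast
    rw [show ((p : ℤ) * c - 1) = -1 + p * c by ring, Int.add_mul_emod_self_left]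
  have hpodd : Odd p := Nat.odd_iff.mpr (by omega)
  have h5 : jacobiSym (-1) p = 1 := by
    rw [jacobiSym.at_neg_one hpodd, ZMod.χ₄_nat_one_mod_four hp4]
  have h6 : jacobiSym 2 p ^ k = 1 := by
    rw [h5, hkm] at h3
    push_cast at h3
    rw [jacobiSym.mul_left, jacobiSym.pow_left, h2, mul_one] at h3
    exact h3
  have h7 : jacobiSym 2 p = 1 := by
    have h8 := jacobiSym.trichotomy 2 p
    rcases h8 with h8 | h8 | h8
    · rw [h8] at h6
      rw [zero_pow (by omega)] at h6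
      exact absurd h6 (by norm_num)
    · exact h8
    · rw [h8, Odd.neg_one_pow (Nat.odd_iff.mpr hk)] at h6
      exact absurd h6 (by norm_num)
  rw [jacobiSym.at_two hpodd, ZMod.χ₈_nat_eq_if_mod_eight] at h7
  split_ifs at h7 with ha hb
  all_goals omega

end IsADS

theorem pow_two_aux {r : ℕ} (hr : 2 ≤ r) (x c : ℤ) (hx : x = 1 + 2 ^ r * (2 * c + 1)) (j : ℕ) :
    ∃ c' : ℤ, x ^ (2 ^ j) = 1 + 2 ^ (r + j) * (2 * c' + 1) := by
  induction j with
  | zero => exact ⟨c, by simpa using hx⟩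
  | succ j ih =>
    obtain ⟨c', hc'⟩ := ih
    obtain ⟨e, he⟩ : ∃ e, r + j = e + 2 := ⟨r + j - 2, by omega⟩
    refine ⟨c' + 2 ^ e * (2 * c' + 1) ^ 2, ?_⟩
    rw [pow_succ, pow_mul, hc', ← add_assoc, he]
    ring

namespace IsADS

/-- `n = 3` modulo `4`: the prime divisors are very restricted modulo powers of two. -/
theorem three_mod_four_case (h : IsADS n N D) (h0 : ∀ d ∈ D, d ∉ N)
    (hmod : n % 4 = 3) {s m : ℕ} (hm : m % 2 = 1) (hsm : n + 1 = 2 ^ s * m)
    {p : ℕ} (hp : p.Prime) (hpn : p ∣ n) :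
    p % 2 ^ (s + 1) = 1 ∨ p % 2 ^ (s + 1) = 2 ^ s - 1 := by
  have hn := h.two_le
  have hns : ¬ IsSquare n := by
    rintro ⟨r, hr⟩
    have : (r * r) % 4 = 3 := by rw [← hr]; exact hmod
    rw [Nat.mul_mod] at this
    have h4 : r % 4 < 4 := Nat.mod_lt _ (by norm_num)
    interval_cases (r % 4) <;> omega
  have hs2 : 2 ≤ s := by
    by_contra hc
    have : s = 0 ∨ s = 1 := by omega
    rcases this with rfl | rfl
    · rw [pow_zero, one_mul] at hsm; omega
    · rw [pow_one] at hsm; omega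
  -- no product of prime divisors of `n` is `-1`
  have key : ∀ t : ℕ, t ≠ 0 → (∀ r : ℕ, r.Prime → r ∣ t → r ∣ n) → ¬ 2 ^ (s + 1) ∣ t + 1 := by
    intro t ht0 ht hdvd
    have h1 : n ^ 2 - 1 = 2 ^ (s + 1) * (((n - 1) / 2) * m) := by
      have h2 : n ^ 2 - 1 = (n - 1) * (n + 1) := by
        obtain ⟨k, rfl⟩ : ∃ k, n = k + 1 := ⟨n - 1, by omega⟩
        have h3 : (k + 1) ^ 2 = k * (k + 1 + 1) + 1 := by ring
        rw [h3]
        simp
      have h4 : n - 1 = 2 * ((n - 1) / 2) := by omega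
      rw [h2, hsm]
      conv_lhs => rw [h4]
      ring
    have hu : (((n - 1) / 2) * m) % 2 = 1 := by
      rw [Nat.mul_mod, hm]
      have : ((n - 1) / 2) % 2 = 1 := by omega
      rw [this]
    obtain ⟨χ, hχ, k, hk, hχk⟩ := h.exists_char_two (by omega) hu h1
    refine hns (h.isSquare_of_char h0 (by positivity) ?_ ht0 ht hdvd hχ hk hχk)
    exact Nat.Coprime.pow_right _ (by rw [Nat.coprime_two_right, Nat.odd_iff]; omega)
  obtain ⟨e, he⟩ : ∃ e, m = 2 * e + 1 := ⟨m / 2, by omega⟩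
  have hnZ : (n : ℤ) = -1 + 2 ^ s * (2 * e + 1) := by
    have : ((n + 1 : ℕ) : ℤ) = ((2 ^ s * m : ℕ) : ℤ) := by rw [hsm]
    rw [he] at this
    push_cast at this
    linarith
  -- the closing computation
  have close : ∀ (x : ℕ) (r : ℕ) (c : ℤ), 2 ≤ r → r ≤ s → x ≠ 0 →
      (∀ r : ℕ, r.Prime → r ∣ x → r ∣ n) → (x : ℤ) = 1 + 2 ^ r * (2 * c + 1) → False := by
    intro x r c hr hrs hx0 hxn hx
    obtain ⟨c', hc'⟩ := pow_two_aux hr x c hx (s - r)
    rw [Nat.add_sub_of_le hrs] at hc'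
    refine key (n * x ^ (2 ^ (s - r))) (mul_ne_zero (by omega) (pow_ne_zero _ hx0)) ?_ ?_
    · intro q hq hqd
      rcases (Nat.Prime.dvd_mul hq).mp hqd with h1 | h1
      · exact h1
      · exact hxn q hq (hq.dvd_of_dvd_pow h1)
    · have h1 : ((2 ^ (s + 1) : ℕ) : ℤ) ∣ ((n * x ^ (2 ^ (s - r)) + 1 : ℕ) : ℤ) := by
        push_cast
        rw [hc', hnZ]
        obtain ⟨i, hi⟩ : ∃ i, s = i + 1 := ⟨s - 1, by omega⟩
        refine ⟨((e : ℤ) - c') + 2 ^ i * (2 * e + 1) * (2 * c' + 1), ?_⟩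
        rw [hi]
        ring
      exact_mod_cast h1
  have hpodd : p % 2 = 1 := by
    rcases hp.eq_two_or_odd with h1 | h1
    · subst h1; omega
    · exact h1
  have hself : ∀ r : ℕ, r.Prime → r ∣ p → r ∣ n := by
    intro r hr hrd
    rwa [(Nat.prime_dvd_prime_iff_eq hr hp).mp hrd]
  have hcase : p % 4 = 1 ∨ p % 4 = 3 := by omega
  rcases hcase with h1 | h3
  · left
    by_contra hc
    have hp1 : p - 1 ≠ 0 := by have := hp.two_le; omega
    obtain ⟨r, u, hu, hru⟩ := Nat.exists_eq_two_pow_mul_odd hp1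
    obtain ⟨c, hc'⟩ := hu
    have hr2 : 2 ≤ r := by
      by_contra hcr
      have : r = 0 ∨ r = 1 := by omega
      rcases this with rfl | rfl
      · rw [pow_zero, one_mul] at hru; omega
      · rw [pow_one] at hru; omega
    have hrs : r ≤ s := by
      by_contra hcs
      apply hc
      obtain ⟨j, hj⟩ : ∃ j, r = s + 1 + j := ⟨r - (s + 1), by omega⟩
      have h4 : p = 1 + 2 ^ (s + 1) * (2 ^ j * u) := by
        have : p - 1 + 1 = p := by have := hp.two_le; omega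
        rw [← this, hru, hj, pow_add]
        ring
      rw [h4, Nat.add_mul_mod_self_left]
      apply Nat.mod_eq_of_lt
      exact Nat.one_lt_two_pow (by omega)
    refine close p r c hr2 hrs hp.ne_zero hself ?_
    have h4 : ((p - 1 : ℕ) : ℤ) = ((2 ^ r * u : ℕ) : ℤ) := by rw [hru]
    rw [Nat.cast_sub hp.one_lt.le, hc'] at h4
    push_cast at h4
    linarith
  · obtain ⟨r, u, hu, hru⟩ := Nat.exists_eq_two_pow_mul_odd (Nat.succ_ne_zero p)
    obtain ⟨c, hc'⟩ := hu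
    rw [Nat.succ_eq_add_one] at hru
    have hr2 : 2 ≤ r := by
      by_contra hcr
      have : r = 0 ∨ r = 1 := by omega
      rcases this with rfl | rfl
      · rw [pow_zero, one_mul] at hru; omega
      · rw [pow_one] at hru; omega
    rcases lt_trichotomy r s with hrs | hrs | hrs
    · exfalso
      obtain ⟨i, hi⟩ : ∃ i, s = r + 1 + i := ⟨s - (r + 1), by omega⟩
      refine close (p * n) r (-(c : ℤ) - 1 - 2 ^ i * (2 * e + 1) +
        2 ^ (r + i) * (2 * c + 1) * (2 * e + 1)) hr2 hrs.le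
        (mul_ne_zero hp.ne_zero (by omega)) ?_ ?_
      · intro q hq hqd
        rcases (Nat.Prime.dvd_mul hq).mp hqd with h5 | h5
        · exact hself q hq h5
        · exact h5
      · have h4 : ((p + 1 : ℕ) : ℤ) = ((2 ^ r * u : ℕ) : ℤ) := by rw [hru]
        rw [hc'] at h4
        push_cast at h4
        have hpZ : (p : ℤ) = -1 + 2 ^ r * (2 * c + 1) := by linarith
        push_cast
        rw [hpZ, hnZ, hi]
        ring
    · right
      subst hrs
      have hpos : 1 ≤ 2 ^ r := Nat.one_le_two_pow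
      have h4 : p = (2 ^ r - 1) + 2 ^ (r + 1) * c := by
        have h5 : p + 1 = 2 ^ r + 2 ^ (r + 1) * c := by rw [hru, hc']; ring
        omega
      have h5 : (2 ^ r - 1) % 2 ^ (r + 1) = 2 ^ r - 1 := by
        apply Nat.mod_eq_of_lt
        have : 2 ^ (r + 1) = 2 * 2 ^ r := by ring
        omega
      conv_lhs => rw [h4, Nat.add_mul_mod_self_left, h5]
    · exfalso
      refine key p hp.ne_zero hself ?_
      obtain ⟨j, hj⟩ : ∃ j, r = s + 1 + j := ⟨r - (s + 1), by omega⟩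
      rw [hru, hj, pow_add]
      exact Dvd.intro _ (by ring : 2 ^ (s + 1) * (2 ^ j * u) = _)

end IsADS

/-- `n` is the order of an abelian affine difference set. -/
def IsOrder (n : ℕ) : Prop :=
  ∃ (G : Type) (_ : AddCommGroup G) (_ : Fintype G) (_ : DecidableEq G)
    (N : AddSubgroup G) (D : Finset G), IsADS n N D

theorem IsOrder.even_case {n : ℕ} (h : IsOrder n) (hns : ¬ IsSquare n) (heven : n % 2 = 0)
    {q : ℕ} (hq : q.Prime) (hqn : q ∣ n - 1) : q % 8 = 1 ∨ q % 8 = 7 := by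
  obtain ⟨G, _, _, _, N, D, hD⟩ := h
  obtain ⟨D', hD', h0⟩ := hD.exists_normalised
  exact hD'.even_case h0 hns heven hq hqn

theorem IsOrder.one_mod_four_case {n : ℕ} (h : IsOrder n) (hns : ¬ IsSquare n)
    (hmod : n % 4 = 1) {p : ℕ} (hp : p.Prime) (hpn : p ∣ n) : p % 4 = 1 := by
  obtain ⟨G, _, _, _, N, D, hD⟩ := h
  obtain ⟨D', hD', h0⟩ := hD.exists_normalised
  exact hD'.one_mod_four_case h0 hns hmod hp hpn

theorem IsOrder.one_mod_eight_case {n : ℕ} (h : IsOrder n) (hns : ¬ IsSquare n)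
    (hmod : n % 4 = 1) {k m : ℕ} (hk : k % 2 = 1) (hm : m % 2 = 1) (hkm : n - 1 = 2 ^ k * m)
    {p : ℕ} (hp : p.Prime) (hpn : p ∣ n) : p % 8 = 1 := by
  obtain ⟨G, _, _, _, N, D, hD⟩ := h
  obtain ⟨D', hD', h0⟩ := hD.exists_normalised
  exact hD'.one_mod_eight_case h0 hns hmod hk hm hkm hp hpn

theorem IsOrder.three_mod_four_case {n : ℕ} (h : IsOrder n) (hmod : n % 4 = 3)
    {s m : ℕ} (hm : m % 2 = 1) (hsm : n + 1 = 2 ^ s * m) {p : ℕ} (hp : p.Prime) (hpn : p ∣ n) :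
    p % 2 ^ (s + 1) = 1 ∨ p % 2 ^ (s + 1) = 2 ^ s - 1 := by
  obtain ⟨G, _, _, _, N, D, hD⟩ := h
  obtain ⟨D', hD', h0⟩ := hD.exists_normalised
  exact hD'.three_mod_four_case h0 hmod hm hsm hp hpn

end Pool.Agent.H27.ADS
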